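import Mathlib

/-! An abstract ping-pong criterion for high transitivity. -/

namespace Pool.Agent.MP_57df8f_al.H50

open Topology Set

variable {G X : Type*} [Group G] [MulAction G X] [TopologicalSpace X]

/-- the dynamical hypotheses, `R` being an invariant four point relation (small cross ratio) -/
structure Setup (G : Type*) {X : Type*} [Group G] [MulAction G X] [TopologicalSpace X]
    (R : X → X → X → X → Prop) : Prop where
  smul : ∀ (g : G) x x' y y', R x x' y y' → R (g • x) (g • x') (g • y) (g • y')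
  symm : ∀ x x' y y', R x x' y y' → R y y' x x'
  small : ∀ x, ∀ W ∈ 𝓝 x, ∃ U ∈ 𝓝 x, U ⊆ W ∧
    ∀ p ∈ U, ∀ p' ∈ U, ∀ q ∉ W, ∀ q' ∉ W, R p p' q q'
  shrink : ∀ (x ω : X) (y : ℕ → X), x ≠ ω → (∀ m, y m ≠ ω) → (∀ m, R x (y (m + 2)) (y m) ω) →
    ∀ V ∈ 𝓝 x, ∃ m, y m ∈ V
  contract : ∀ a r : X, ∀ U ∈ 𝓝 a, ∀ V ∈ 𝓝 r, ∃ (γ : G) (Dp Dm : Set X), IsClosed Dp ∧
    IsClosed Dm ∧ Dp ⊆ U ∧ Dm ⊆ V ∧ ∀ x, x ∈ Dm ↔ γ • x ∉ Dp
  fix_finite : ∀ g : G, g ≠ 1 → {x : X | g • x = x}.Finite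
  open_infinite : ∀ V : Set X, IsOpen V → V.Nonempty → V.Infinite
  nonempty : Nonempty X

/-- a finite ping-pong table -/
structure Sys (G : Type*) {X : Type*} [Group G] [MulAction G X] [TopologicalSpace X]
    (R : X → X → X → X → Prop) where
  ι : Type
  fin : Finite ι
  gen : ι → G
  inv : ι → ι
  D : ι → Set X
  gen_inv : ∀ s, gen (inv s) = (gen s)⁻¹
  inv_inv : ∀ s, inv (inv s) = s
  closed : ∀ s, IsClosed (D s)
  disj : ∀ s t x, x ∈ D s → x ∈ D t → s = t
  sep : ∀ s t, s ≠ t → ∀ p ∈ D s, ∀ p' ∈ D s, ∀ q ∈ D t, ∀ q' ∈ D t, R p p' q q'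
  play : ∀ s x, x ∈ D (inv s) ↔ gen s • x ∉ D s
  base : ∃ ω, ∀ s, ω ∉ D s

variable {R : X → X → X → X → Prop}

namespace Sys

def grp (S : Sys G R) : Subgroup G := Subgroup.closure (range S.gen)

def O (S : Sys G R) : Set X := {x | ∀ s, x ∉ S.D s}

theorem gen_mem (S : Sys G R) (s : S.ι) : S.gen s ∈ S.grp := Subgroup.subset_closure ⟨s, rfl⟩

theorem isOpen_O (S : Sys G R) : IsOpen S.O := by
  have := S.fin
  have : S.O = ⋂ s, (S.D s)ᶜ := by ext x; simp [O]
  rw [this]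
  exact isOpen_iInter_of_finite fun s => (S.closed s).isOpen_compl

inductive Red (S : Sys G R) (b : X) : G → Prop
  | one : Red S b 1
  | cons (s : S.ι) (δ : G) : Red S b δ → δ • b ∉ S.D (S.inv s) → Red S b (S.gen s * δ)

theorem mem_of_not (S : Sys G R) (s : S.ι) (x : X) (h : x ∉ S.D (S.inv s)) :
    S.gen s • x ∈ S.D s := by
  by_contra hc
  exact h ((S.play s x).2 hc)

theorem red_mul (S : Sys G R) {b : X} (hb : b ∈ S.O) (s : S.ι) {δ : G} (h : Red S b δ) :
    Red S b (S.gen s * δ) := by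
  by_cases hc : δ • b ∈ S.D (S.inv s)
  · cases h with
    | one => exact absurd (by simpa using hc) (hb _)
    | cons t δ' h' hn =>
      have h1 : (S.gen t * δ') • b ∈ S.D t := by
        rw [mul_smul]; exact S.mem_of_not t _ hn
      have h2 : t = S.inv s := S.disj _ _ _ h1 hc
      rw [h2, S.gen_inv, mul_inv_cancel_left]
      exact h'
  · exact Red.cons s δ h hc

theorem red_all (S : Sys G R) {b : X} (hb : b ∈ S.O) {δ : G} (h : δ ∈ S.grp) : Red S b δ := by
  induction h using Subgroup.closure_induction_left with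
  | one => exact Red.one
  | mul_left x hx y _ ih =>
    obtain ⟨s, rfl⟩ := hx
    exact S.red_mul hb s ih
  | inv_mul_cancel x hx y _ ih =>
    obtain ⟨s, rfl⟩ := hx
    rw [← S.gen_inv]
    exact S.red_mul hb _ ih

theorem wander (S : Sys G R) {b : X} (hb : b ∈ S.O) {δ : G} (h : δ ∈ S.grp) (hδ : δ • b ∈ S.O) :
    δ = 1 := by
  cases S.red_all hb h with
  | one => rfl
  | cons t δ' _ hn =>
    exact absurd (by rw [mul_smul]; exact S.mem_of_not t _ hn) (hδ t)

theorem protect (S : Sys G R) {b : X} (hb : b ∈ S.O) (new : S.ι → Prop) (Δ : Subgroup G)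
    (hΔ : ∀ s, ¬ new s → S.gen s ∈ Δ) {δ : G} (h : δ ∈ S.grp) :
    δ ∈ Δ ∨ ∃ δ0 ∈ Δ, ∃ s, new s ∧ δ0 • δ • b ∈ S.D s := by
  have := S.red_all hb h
  clear h
  induction this with
  | one => exact Or.inl Δ.one_mem
  | cons s δ' _ hn ih =>
    by_cases hs : new s
    · refine Or.inr ⟨1, Δ.one_mem, s, hs, ?_⟩
      rw [one_smul, mul_smul]
      exact S.mem_of_not s _ hn
    · rcases ih with ih | ⟨δ0, h0, t, ht, h1⟩
      · exact Or.inl (Δ.mul_mem (hΔ s hs) ih)
      · refine Or.inr ⟨δ0 * (S.gen s)⁻¹, Δ.mul_mem h0 (Δ.inv_mem (hΔ s hs)), t, ht, ?_⟩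
        simpa [mul_smul] using h1

theorem dense (H : Setup G R) (S : Sys G R) {V : Set X} (hV : IsOpen V) (hne : V.Nonempty) :
    ∃ x ∈ V, ∃ δ ∈ S.grp, δ • x ∈ S.O := by
  by_contra hcon
  push Not at hcon
  obtain ⟨x, hx⟩ := hne
  obtain ⟨ω, hω⟩ := S.base
  have hch : ∀ w : S.grp, ∃ s, (w : G)⁻¹ • x ∈ S.D s := by
    intro w
    have := hcon x hx _ (S.grp.inv_mem w.2)
    simpa [O] using this
  choose c hc using hch
  let w : ℕ → S.grp := fun n => Nat.rec 1 (fun _ u => u * ⟨S.gen (c u), S.gen_mem _⟩) n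
  have hw : ∀ n : ℕ, (w (n + 1)).1 = (w n).1 * S.gen (c (w n)) := fun n => rfl
  let A : ℕ → Set X := fun n => {p | (w n).1⁻¹ • p ∈ S.D (c (w n))}
  have hout : ∀ n p, p ∉ A n ↔ (w (n + 1)).1⁻¹ • p ∈ S.D (S.inv (c (w n))) := by
    intro n p
    rw [S.play, hw, mul_inv_rev, mul_smul, smul_inv_smul]
    rfl
  have hxA : ∀ n, x ∈ A n := fun n => hc _
  have hne : ∀ n, c (w (n + 1)) ≠ S.inv (c (w n)) := by
    intro n h
    have h1 : (w (n + 1)).1⁻¹ • x ∈ S.D (c (w (n + 1))) := hc _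
    rw [h, ← hout] at h1
    exact h1 (hxA n)
  have hanti : ∀ n p, p ∈ A (n + 1) → p ∈ A n := by
    intro n p hp
    by_contra h
    exact hne n (S.disj _ _ _ hp ((hout n p).1 h))
  have hωA : ∀ n, ω ∉ A n := by
    intro n
    induction n with
    | zero =>
      intro h
      have : ((1 : S.grp) : G)⁻¹ • ω ∈ S.D (c (w 0)) := h
      exact hω _ (by simpa using this)
    | succ n ih => exact fun h => ih (hanti n ω h)
  have hy1 : ∀ n, (w n).1 • ω ∉ A n := by
    intro n h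
    have : (w n).1⁻¹ • (w n).1 • ω ∈ S.D (c (w n)) := h
    rw [inv_smul_smul] at this
    exact hω _ this
  have hy2 : ∀ n, (w (n + 1)).1 • ω ∈ A n := by
    intro n
    by_contra h
    rw [hout, inv_smul_smul] at h
    exact hω _ h
  obtain ⟨m, hm⟩ := H.shrink x ω (fun m => (w (m + 1)).1 • ω)
    (fun h => hωA 0 (h ▸ hxA 0)) (fun m h => hωA m (h ▸ hy2 m)) (fun m => by
      have := H.smul (w (m + 2)).1 _ _ _ _ (S.sep _ _ (hne (m + 1)) _ (hxA (m + 2)) _
        (hy2 (m + 2)) _ ((hout (m + 1) _).1 (hy1 (m + 1))) _ ((hout (m + 1) _).1 (hωA (m + 1))))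
      simpa only [smul_inv_smul] using this) V (hV.mem_nhds hx)
  refine hcon _ hm _ (S.grp.inv_mem (w (m + 1)).2) ?_
  rw [inv_smul_smul]
  exact hω

theorem exists_pt [ContinuousConstSMul G X] (H : Setup G R) (S : Sys G R) {κ : Type} [Finite κ]
    (g : κ → G) (hg : ∀ i j, i ≠ j → (g i)⁻¹ * g j ∉ S.grp) (Bad : Set X) (hB : Bad.Finite) :
    ∃ (r : X) (δ : κ → G), (∀ i, δ i ∈ S.grp) ∧ (∀ i, (δ i * (g i)⁻¹) • r ∈ S.O) ∧
      (∀ i, (δ i * (g i)⁻¹) • r ∉ Bad) ∧
      Function.Injective fun i => (δ i * (g i)⁻¹) • r := by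
  classical
  have := Fintype.ofFinite κ
  have h1 : ∀ T : Finset κ, ∃ (V : Set X) (δ : κ → G), IsOpen V ∧ V.Nonempty ∧
      (∀ i, δ i ∈ S.grp) ∧ ∀ i ∈ T, ∀ x ∈ V, (δ i * (g i)⁻¹) • x ∈ S.O := by
    intro T
    induction T using Finset.induction_on with
    | empty =>
      obtain ⟨x⟩ := H.nonempty
      exact ⟨univ, fun _ => 1, isOpen_univ, ⟨x, trivial⟩, fun _ => S.grp.one_mem, by simp⟩
    | insert j T hj ih =>
      obtain ⟨V, δ, hV, ⟨x0, hx0⟩, hδ, hT⟩ := ih
      obtain ⟨y, hy, d, hd, hdy⟩ := S.dense H (V := (fun p => g j • p) ⁻¹' V)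
        (hV.preimage (continuous_const_smul _)) ⟨(g j)⁻¹ • x0, by simpa using hx0⟩
      refine ⟨V ∩ (fun p => (d * (g j)⁻¹) • p) ⁻¹' S.O, Function.update δ j d,
        hV.inter (S.isOpen_O.preimage (continuous_const_smul _)),
        ⟨g j • y, hy, by simpa [mul_smul] using hdy⟩, ?_, ?_⟩
      · intro i
        by_cases hi : i = j
        · subst hi; simpa using hd
        · simpa [hi] using hδ i
      · intro i hi x hx
        by_cases hij : i = j
        · subst hij; simpa using hx.2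
        · rw [Function.update_of_ne hij]
          exact hT i ((Finset.mem_insert.1 hi).resolve_left hij) x hx.1
  obtain ⟨V, δ, hV, hne, hδ, hT⟩ := h1 Finset.univ
  let u : κ → G := fun i => δ i * (g i)⁻¹
  have hfin : ((⋃ i, (fun p => u i • p) ⁻¹' Bad) ∪
      ⋃ i, ⋃ j, {x : X | i ≠ j ∧ u i • x = u j • x}).Finite := by
    refine Finite.union (finite_iUnion fun i => hB.preimage (MulAction.injective _).injOn) ?_
    refine finite_iUnion fun i => finite_iUnion fun j => ?_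
    by_cases hij : i = j
    · simp [hij]
    · refine (H.fix_finite ((u j)⁻¹ * u i) ?_).subset ?_
      · intro h
        apply hg i j hij
        have h2 : u j = u i := inv_mul_eq_one.1 h
        have h3 : (g i)⁻¹ * g j = (δ i)⁻¹ * δ j := by
          have : δ j = δ i * (g i)⁻¹ * g j := by
            change δ j * (g j)⁻¹ = δ i * (g i)⁻¹ at h2
            rw [← h2]; group
          rw [this]; group
        rw [h3]
        exact S.grp.mul_mem (S.grp.inv_mem (hδ i)) (hδ j)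
      · rintro x ⟨-, hx⟩
        change ((u j)⁻¹ * u i) • x = x
        rw [mul_smul, hx, inv_smul_smul]
  obtain ⟨r, hrV, hr⟩ := (H.open_infinite V hV hne).exists_notMem_finite hfin
  simp only [mem_union, mem_iUnion, not_or, not_exists] at hr
  refine ⟨r, δ, hδ, fun i => hT i (Finset.mem_univ _) r hrV, fun i => hr.1 i, ?_⟩
  intro i j hij
  by_contra h
  exact hr.2 i j ⟨h, hij⟩

/-- the extension step -/
theorem step [ContinuousConstSMul G X] [T2Space X] (H : Setup G R) (S : Sys G R) {κ : Type}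
    [Finite κ] (g h : κ → G) (hg : ∀ i j, i ≠ j → (g i)⁻¹ * g j ∉ S.grp)
    (hh : ∀ i j, i ≠ j → (h i)⁻¹ * h j ∉ S.grp) (P : Set G) (hP : P.Finite)
    (hPS : ∀ p ∈ P, p ∉ S.grp) :
    ∃ S' : Sys G R, S.grp ≤ S'.grp ∧ (∀ p ∈ P, p ∉ S'.grp) ∧
      ∃ γ : G, ∀ i, (h i)⁻¹ * γ * g i ∈ S'.grp := by
  classical
  have := S.fin
  obtain ⟨ω, hω⟩ := S.base
  let Bad : Set X := {ω} ∪ ⋃ p ∈ P, {x | x ∈ S.O ∧ ∃ δ ∈ S.grp, δ • p • ω = x}
  have hBad : Bad.Finite := by
    refine (finite_singleton _).union (hP.biUnion fun p _ => Set.Subsingleton.finite ?_)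
    rintro x ⟨hx, δ, hδ, rfl⟩ y ⟨hy, δ', hδ', rfl⟩
    have := S.wander hx (S.grp.mul_mem hδ' (S.grp.inv_mem hδ)) (by simpa [mul_smul] using hy)
    rw [mul_inv_eq_one.1 this]
  obtain ⟨r, δ, hδ, hrO, hrB, hri⟩ := S.exists_pt H g hg Bad hBad
  obtain ⟨a, δ', hδ', haO, haB, hai⟩ := S.exists_pt H h hh
    (Bad ∪ range fun i => (δ i * (g i)⁻¹) • r) (hBad.union (finite_range _))
  -- the transporting elements and the centres of the new discs
  let u : κ × Bool → G := fun z => if z.2 then δ' z.1 * (h z.1)⁻¹ else δ z.1 * (g z.1)⁻¹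
  let c : Bool → X := fun b => if b then a else r
  let z : κ × Bool → X := fun s => u s • c s.2
  have hzi : Function.Injective z := by
    rintro ⟨i, b⟩ ⟨j, b'⟩ hij
    cases b <;> cases b'
    · exact congrArg (·, false) (hri hij)
    · exact absurd (Or.inr ⟨i, hij⟩) (haB j)
    · exact absurd (Or.inr ⟨j, hij.symm⟩) (haB i)
    · exact congrArg (·, true) (hai hij)
  have hzO : ∀ s, z s ∈ S.O ∩ Badᶜ := by
    rintro ⟨i, b⟩
    cases b
    · exact ⟨hrO i, hrB i⟩
    · exact ⟨haO i, fun hb => haB i (Or.inl hb)⟩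
  obtain ⟨W0, hW0, hW0d⟩ := (finite_range z).t2_separation
  let W : κ × Bool → Set X := fun s => W0 (z s) ∩ (S.O ∩ Badᶜ)
  have hW : ∀ s, W s ∈ 𝓝 (z s) := fun s =>
    ((hW0 _).2.inter (S.isOpen_O.inter hBad.isClosed.isOpen_compl)).mem_nhds
      ⟨(hW0 _).1, hzO s⟩
  have hWd : ∀ s t x, x ∈ W s → x ∈ W t → s = t := by
    intro s t x hs ht
    by_contra hne
    exact Set.disjoint_left.1 (hW0d ⟨s, rfl⟩ ⟨t, rfl⟩ fun e => hne (hzi e)) hs.1 ht.1
  choose U hU hUW hUR using fun s => H.small (z s) (W s) (hW s)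
  have hN : ∀ b, (⋂ i, (fun p => u (i, b) • p) ⁻¹' U (i, b)) ∈ 𝓝 (c b) := fun b =>
    Filter.iInter_mem.2 fun i => (continuous_const_smul _).continuousAt.preimage_mem_nhds
      (hU (i, b))
  obtain ⟨γ, Dp, Dm, cp, cm, sp, sm, hγ⟩ := H.contract a r _ (hN true) _ (hN false)
  let E : Bool → Set X := fun b => if b then Dp else Dm
  let D' : κ × Bool → Set X := fun s => (fun p => (u s)⁻¹ • p) ⁻¹' E s.2
  have hD'U : ∀ s, D' s ⊆ U s := by
    rintro ⟨i, b⟩ p hp
    have h1 : (u (i, b))⁻¹ • p ∈ ⋂ i, (fun p => u (i, b) • p) ⁻¹' U (i, b) := by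
      cases b
      · exact sm hp
      · exact sp hp
    simpa using mem_iInter.1 h1 i
  have hD'W : ∀ s, D' s ⊆ W s := fun s => (hD'U s).trans (hUW s)
  let gen' : κ × Bool → G := fun s =>
    if s.2 then u (s.1, true) * γ * (u (s.1, false))⁻¹ else u (s.1, false) * γ⁻¹ * (u (s.1, true))⁻¹
  let S' : Sys G R :=
    { ι := S.ι ⊕ (κ × Bool)
      fin := inferInstance
      gen := Sum.elim S.gen gen'
      inv := Sum.map S.inv fun s => (s.1, !s.2)
      D := Sum.elim S.D D'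
      gen_inv := by
        rintro (s | ⟨i, b⟩)
        · exact S.gen_inv s
        · cases b <;> simp [gen', mul_assoc]
      inv_inv := by
        rintro (s | ⟨i, b⟩)
        · simp [S.inv_inv]
        · simp
      closed := by
        rintro (s | ⟨i, b⟩)
        · exact S.closed s
        · refine IsClosed.preimage (continuous_const_smul _) ?_
          cases b
          · exact cm
          · exact cp
      disj := by
        rintro (s | s) (t | t) x hs ht
        · exact congrArg _ (S.disj s t x hs ht)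
        · exact absurd hs ((hD'W t ht).2.1 s)
        · exact absurd ht ((hD'W s hs).2.1 t)
        · exact congrArg _ (hWd s t x (hD'W s hs) (hD'W t ht))
      sep := by
        rintro (s | s) (t | t) hst p hp p' hp' q hq q' hq'
        · exact S.sep s t (fun e => hst (congrArg _ e)) p hp p' hp' q hq q' hq'
        · exact H.symm _ _ _ _ (hUR t q (hD'U t hq) q' (hD'U t hq') p (fun e => e.2.1 s hp) p'
            (fun e => e.2.1 s hp'))
        · exact hUR s p (hD'U s hp) p' (hD'U s hp') q (fun e => e.2.1 t hq) q'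
            (fun e => e.2.1 t hq')
        · exact hUR s p (hD'U s hp) p' (hD'U s hp') q
            (fun e => hst (congrArg _ (hWd s t q e (hD'W t hq)))) q'
            (fun e => hst (congrArg _ (hWd s t q' e (hD'W t hq'))))
      play := by
        rintro (s | ⟨i, b⟩) x
        · exact S.play s x
        · cases b
          · change (u (i, true))⁻¹ • x ∈ Dp ↔
              ¬ ((u (i, false))⁻¹ • (u (i, false) * γ⁻¹ * (u (i, true))⁻¹) • x ∈ Dm)
            rw [hγ]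
            simp [mul_smul]
          · change (u (i, false))⁻¹ • x ∈ Dm ↔
              ¬ ((u (i, true))⁻¹ • (u (i, true) * γ * (u (i, false))⁻¹) • x ∈ Dp)
            rw [hγ]
            simp [mul_smul]
      base := by
        refine ⟨ω, ?_⟩
        rintro (s | s) hs
        · exact hω s hs
        · exact (hD'W s hs).2.2 (Or.inl rfl) }
  have hle : S.grp ≤ S'.grp := by
    refine (Subgroup.closure_le _).2 ?_
    rintro _ ⟨s, rfl⟩
    exact S'.gen_mem (Sum.inl s)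
  have hω' : ω ∈ S'.O := by
    rintro (s | s) hs
    · exact hω s hs
    · exact (hD'W s hs).2.2 (Or.inl rfl)
  refine ⟨S', hle, fun p hp hp' => ?_, γ, fun i => ?_⟩
  · rcases S'.protect hω' (fun s => s.isRight) S.grp (by
      rintro (s | s) hs
      · exact S.gen_mem s
      · simp at hs) hp' with h1 | ⟨δ0, h0, s, hs, h1⟩
    · exact hPS p hp h1
    · rcases s with s | s
      · simp at hs
      · have h2 := (hD'W s h1).2
        exact h2.2 (Or.inr (mem_biUnion hp ⟨h2.1, δ0, h0, rfl⟩))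
  · have h1 : gen' (i, true) ∈ S'.grp := S'.gen_mem (Sum.inr (i, true))
    have h2 : (h i)⁻¹ * γ * g i = (δ' i)⁻¹ * gen' (i, true) * δ i := by
      simp only [gen', u, if_true, Bool.false_eq_true, if_false]
      group
    rw [h2]
    exact S'.grp.mul_mem (S'.grp.mul_mem (S'.grp.inv_mem (hle (hδ' i))) h1) (hle (hδ i))

theorem conj_not_mem [T1Space X] (H : Setup G R) (S : Sys G R) {g : G} (hg : g ≠ 1) :
    ∃ h : G, h⁻¹ * g * h ∉ S.grp := by
  obtain ⟨ω, hω⟩ := S.base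
  have hinf : (univ : Set X).Infinite := H.open_infinite _ isOpen_univ ⟨ω, trivial⟩
  obtain ⟨x, -, hx⟩ := hinf.exists_notMem_finite (H.fix_finite g hg)
  have hfin : ({x, g • x} : Set X).Finite := toFinite _
  obtain ⟨r, -, hr⟩ := hinf.exists_notMem_finite hfin
  obtain ⟨γ, Dp, Dm, -, -, sp, sm, hγ⟩ := H.contract ω r _ (S.isOpen_O.mem_nhds hω) _
    (hfin.isClosed.isOpen_compl.mem_nhds hr)
  have h1 : ∀ p ∈ ({x, g • x} : Set X), γ • p ∈ S.O := by
    intro p hp
    apply sp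
    by_contra hc
    exact sm ((hγ p).2 hc) hp
  refine ⟨γ⁻¹, fun hm => ?_⟩
  have := S.wander (h1 x (by simp)) hm (by simpa [mul_smul] using h1 (g • x) (by simp))
  apply hg
  have h2 : g = γ⁻¹ * (γ⁻¹⁻¹ * g * γ⁻¹) * γ := by group
  rw [h2, this]
  group

end Sys

theorem exists_subgroup [ContinuousConstSMul G X] [T2Space X] [Countable G] (H : Setup G R) :
    ∃ M : Subgroup G, (∀ g : G, g ≠ 1 → ∃ h : G, h⁻¹ * g * h ∉ M) ∧
      ∀ (k : ℕ) (g h : Fin k → G), (∀ i j, i ≠ j → (g i)⁻¹ * g j ∉ M) →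
        (∀ i j, i ≠ j → (h i)⁻¹ * h j ∉ M) → ∃ γ : G, ∀ i, (h i)⁻¹ * γ * g i ∈ M := by
  classical
  let St := {z : Sys G R × Set G // z.2.Finite ∧ ∀ p ∈ z.2, p ∉ z.1.grp}
  let Req := (Σ k : ℕ, (Fin k → G) × (Fin k → G)) × G
  have hstep : ∀ (s : St) (q : Req), ∃ s' : St, s.1.1.grp ≤ s'.1.1.grp ∧ s.1.2 ⊆ s'.1.2 ∧
      (q.2 ≠ 1 → ∃ h : G, h⁻¹ * q.2 * h ∈ s'.1.2) ∧
      ((∀ i j, i ≠ j → (q.1.2.1 i)⁻¹ * q.1.2.1 j ∉ s'.1.1.grp) →
        (∀ i j, i ≠ j → (q.1.2.2 i)⁻¹ * q.1.2.2 j ∉ s'.1.1.grp) →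
        ∃ γ : G, ∀ i, (q.1.2.2 i)⁻¹ * γ * q.1.2.1 i ∈ s'.1.1.grp) := by
    rintro ⟨⟨S, P⟩, hP, hPS⟩ ⟨⟨k, g, h⟩, e⟩
    obtain ⟨P', hP', hPP', hP'S, he⟩ : ∃ P' : Set G, P'.Finite ∧ P ⊆ P' ∧ (∀ p ∈ P', p ∉ S.grp) ∧
        (e ≠ 1 → ∃ h : G, h⁻¹ * e * h ∈ P') := by
      by_cases he : e = 1
      · exact ⟨P, hP, subset_rfl, hPS, fun h => absurd he h⟩
      · obtain ⟨h, hh⟩ := S.conj_not_mem H he
        refine ⟨insert (h⁻¹ * e * h) P, hP.insert _, subset_insert _ _, ?_,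
          fun _ => ⟨h, mem_insert _ _⟩⟩
        rintro p (rfl | hp)
        · exact hh
        · exact hPS p hp
    by_cases hc : (∀ i j, i ≠ j → (g i)⁻¹ * g j ∉ S.grp) ∧ ∀ i j, i ≠ j → (h i)⁻¹ * h j ∉ S.grp
    · obtain ⟨S', h1, h2, h3⟩ := S.step H g h hc.1 hc.2 P' hP' hP'S
      exact ⟨⟨(S', P'), hP', h2⟩, h1, hPP', he, fun _ _ => h3⟩
    · exact ⟨⟨(S, P'), hP', hP'S⟩, le_rfl, hPP', he, fun h1 h2 => absurd ⟨h1, h2⟩ hc⟩
  choose nxt hn1 hn2 hn3 hn4 using hstep
  have : Nonempty Req := ⟨⟨⟨0, fun _ => 1, fun _ => 1⟩, 1⟩⟩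
  obtain ⟨e, he⟩ := exists_surjective_nat Req
  let S0 : Sys G R :=
    { ι := Empty
      fin := inferInstance
      gen := Empty.elim
      inv := id
      D := Empty.elim
      gen_inv := fun s => s.elim
      inv_inv := fun s => s.elim
      closed := fun s => s.elim
      disj := fun s => s.elim
      sep := fun s => s.elim
      play := fun s => s.elim
      base := H.nonempty.elim fun x => ⟨x, fun s => s.elim⟩ }
  let s : ℕ → St := fun n => Nat.rec ⟨(S0, ∅), finite_empty, by simp⟩ (fun n u => nxt u (e n)) n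
  have hs : ∀ n, s (n + 1) = nxt (s n) (e n) := fun n => rfl
  have m1 : Monotone fun n => (s n).1.1.grp := monotone_nat_of_le_succ fun n => hn1 _ _
  have m2 : Monotone fun n => (s n).1.2 := monotone_nat_of_le_succ fun n => hn2 _ _
  have hmem : ∀ x, x ∈ (⨆ n, (s n).1.1.grp) ↔ ∃ n, x ∈ (s n).1.1.grp := fun x =>
    Subgroup.mem_iSup_of_directed m1.directed_le
  refine ⟨⨆ n, (s n).1.1.grp, fun g hg => ?_, fun k g h h1 h2 => ?_⟩
  · obtain ⟨n, hn⟩ := he ⟨⟨0, fun _ => 1, fun _ => 1⟩, g⟩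
    have := hn3 (s n) (e n)
    rw [← hs, hn] at this
    obtain ⟨h, hh⟩ := this hg
    refine ⟨h, fun hm => ?_⟩
    obtain ⟨m, hm⟩ := (hmem _).1 hm
    exact (s (max (n + 1) m)).2.2 _ (m2 (le_max_left _ _) hh) (m1 (le_max_right _ _) hm)
  · obtain ⟨n, hn⟩ := he ⟨⟨k, g, h⟩, 1⟩
    have := hn4 (s n) (e n)
    rw [← hs, hn] at this
    obtain ⟨γ, hγ⟩ := this (fun i j hij hm => h1 i j hij ((hmem _).2 ⟨n + 1, hm⟩))
      (fun i j hij hm => h2 i j hij ((hmem _).2 ⟨n + 1, hm⟩))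
    exact ⟨γ, fun i => (hmem _).2 ⟨n + 1, hγ i⟩⟩

theorem highly_transitive [ContinuousConstSMul G X] [T2Space X] [Countable G] (H : Setup G R) :
    ∃ M : Subgroup G, FaithfulSMul G (G ⧸ M) ∧
      ∀ k : ℕ, MulAction.IsMultiplyPretransitive G (G ⧸ M) k := by
  obtain ⟨M, h1, h2⟩ := exists_subgroup H
  refine ⟨M, faithfulSMul_iff.2 fun g hg => ?_, fun k => ?_⟩
  · by_contra hne
    obtain ⟨h, hh⟩ := h1 g hne
    apply hh
    have := hg (h : G ⧸ M)
    rw [MulAction.Quotient.smul_coe, eq_comm, QuotientGroup.eq] at this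
    simpa [mul_assoc] using this
  · rw [MulAction.isMultiplyPretransitive_iff]
    intro x y
    have hx : ∀ (x : Fin k ↪ G ⧸ M) i j, i ≠ j → ((x i).out)⁻¹ * (x j).out ∉ M := by
      intro x i j hij hm
      rw [← QuotientGroup.eq, QuotientGroup.out_eq', QuotientGroup.out_eq'] at hm
      exact hij (x.injective hm)
    obtain ⟨γ, hγ⟩ := h2 k (fun i => (x i).out) (fun i => (y i).out) (hx x) (hx y)
    refine ⟨γ, Function.Embedding.ext fun i => ?_⟩
    have := hγ i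
    rw [mul_assoc, ← QuotientGroup.eq, QuotientGroup.out_eq'] at this
    rw [Function.Embedding.smul_apply, this, ← smul_eq_mul, ← MulAction.Quotient.smul_coe,
      QuotientGroup.out_eq']

end Pool.Agent.MP_57df8f_al.H50
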