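import Mathlib

/-! Permutation group part of the proof that there is no faithful 4-transitive action. -/

namespace Pool.Agent.MP_57df8f_al.H50

variable {G Ω : Type*} [Group G] [MulAction G Ω]

/-- `m` induces the permutation `σ` on the tuple `x` -/
def Act (x : Fin 4 ↪ Ω) (m : G) (σ : Equiv.Perm (Fin 4)) : Prop := ∀ i, m • x i = x (σ i)

theorem Act.mul {x : Fin 4 ↪ Ω} {m m' : G} {σ σ' : Equiv.Perm (Fin 4)} (h : Act x m σ)
    (h' : Act x m' σ') : Act x (m * m') (σ * σ') := fun i => by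
  rw [mul_smul, h', h]; rfl

theorem Act.inv {x : Fin 4 ↪ Ω} {m : G} {σ : Equiv.Perm (Fin 4)} (h : Act x m σ) :
    Act x m⁻¹ σ⁻¹ := fun i => by
  rw [inv_smul_eq_iff, h]; simp

theorem Act.one (x : Fin 4 ↪ Ω) : Act x (1 : G) 1 := fun i => by simp

theorem Act.pow {x : Fin 4 ↪ Ω} {m : G} {σ : Equiv.Perm (Fin 4)} (h : Act x m σ) (n : ℕ) :
    Act x (m ^ n) (σ ^ n) := by
  induction n with
  | zero => simpa using Act.one x
  | succ n ih => rw [pow_succ, pow_succ]; exact ih.mul h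

theorem Act.unique {x : Fin 4 ↪ Ω} {m : G} {σ σ' : Equiv.Perm (Fin 4)} (h : Act x m σ)
    (h' : Act x m σ') : σ = σ' :=
  Equiv.ext fun i => x.injective ((h i).symm.trans (h' i))

theorem exists_act (h4 : MulAction.IsMultiplyPretransitive G Ω 4) (x : Fin 4 ↪ Ω)
    (σ : Equiv.Perm (Fin 4)) : ∃ m : G, Act x m σ := by
  obtain ⟨g, hg⟩ := MulAction.isMultiplyPretransitive_iff.1 h4 x (σ.toEmbedding.trans x)
  exact ⟨g, fun i => by simpa using DFunLike.congr_fun hg i⟩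

theorem frattini (hlf : ∀ s : Set G, s.Finite → Finite (Subgroup.closure s))
    (h4 : MulAction.IsMultiplyPretransitive G Ω 4) (x : Fin 4 ↪ Ω) (h : G) (h1 : h ≠ 1)
    (hx : Act x h 1) :
    ∃ Z : Subgroup G, (∃ z ∈ Z, z ≠ 1) ∧ (∀ z ∈ Z, ∀ w ∈ Z, z * w = w * z) ∧
      (∀ z ∈ Z, Act x z 1) ∧
      ∀ σ, ∃ m : G, (∀ z, z ∈ Z ↔ m * z * m⁻¹ ∈ Z) ∧ Act x m σ := by
  choose g hg using exists_act h4 x
  let N := Subgroup.closure (insert h (Set.range g))
  have : Finite N := hlf _ ((Set.finite_range g).insert h)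
  have hN : ∀ n ∈ N, ∃ σ, Act x n σ := by
    intro n hn
    induction hn using Subgroup.closure_induction with
    | mem y hy =>
      rcases hy with rfl | ⟨σ, rfl⟩
      · exact ⟨1, hx⟩
      · exact ⟨σ, hg σ⟩
    | one => exact ⟨1, Act.one x⟩
    | mul a b _ _ ha hb =>
      obtain ⟨σ, ha⟩ := ha
      obtain ⟨τ, hb⟩ := hb
      exact ⟨_, ha.mul hb⟩
    | inv a _ ha =>
      obtain ⟨σ, ha⟩ := ha
      exact ⟨_, ha.inv⟩
  let H : Subgroup N :=
    { carrier := {n | Act x (n : G) 1}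
      mul_mem' := fun ha hb => by simpa using Act.mul ha hb
      one_mem' := Act.one x
      inv_mem' := fun ha => by simpa using Act.inv ha }
  have : H.Normal := ⟨fun a ha n => by
    obtain ⟨σ, hσ⟩ := hN n n.2
    have := (hσ.mul ha).mul hσ.inv
    rw [mul_one, mul_inv_cancel] at this
    exact this⟩
  have hhN : h ∈ N := Subgroup.subset_closure (Set.mem_insert _ _)
  have : Nontrivial H := ⟨⟨⟨⟨h, hhN⟩, hx⟩, 1, fun e => h1 (congrArg (fun y : H => (y.1 : G)) e)⟩⟩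
  obtain ⟨r, hr, hrd⟩ := Nat.exists_prime_and_dvd (Finite.one_lt_card (α := H)).ne'
  have : Fact r.Prime := ⟨hr⟩
  obtain ⟨P⟩ : Nonempty (Sylow r H) := inferInstance
  have hP : (P : Subgroup H) ≠ ⊥ := P.ne_bot_of_dvd_card hrd
  have : Nontrivial P := (Subgroup.nontrivial_iff_ne_bot _).2 hP
  have hc := P.isPGroup'.center_nontrivial
  let S : Subgroup G := ((P : Subgroup H).map H.subtype).map N.subtype
  let Z : Subgroup G := S ⊓ Subgroup.centralizer S
  refine ⟨Z, ?_, fun z hz w hw => (hz.2 w hw.1).symm ▸ (hw.2 z hz.1), ?_, fun σ => ?_⟩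
  · obtain ⟨z, hz⟩ := exists_ne (1 : Subgroup.center P)
    refine ⟨z.1.1.1.1, ⟨⟨_, ⟨_, z.1.2, rfl⟩, rfl⟩, ?_⟩, fun e => hz (Subtype.ext (Subtype.ext
      (Subtype.ext (Subtype.ext e))))⟩
    rintro _ ⟨_, ⟨w, hw, rfl⟩, rfl⟩
    have := Subgroup.mem_center_iff.1 z.2 ⟨w, hw⟩
    exact congrArg (fun y : P => (y.1.1.1 : G)) this
  · rintro _ ⟨⟨_, ⟨w, -, rfl⟩, rfl⟩, -⟩
    exact w.2
  · have hmem : (⟨g σ, Subgroup.subset_closure (Set.mem_insert_of_mem _ ⟨σ, rfl⟩)⟩ : N) ∈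
        Subgroup.normalizer (((P : Subgroup H).map H.subtype : Subgroup N) : Set N) ⊔ H := by
      rw [Sylow.normalizer_sup_eq_top P]; trivial
    obtain ⟨m, hm, k, hk, hmk⟩ := Subgroup.mem_sup_of_normal_right.1 hmem
    have hS : ∀ z : G, z ∈ S ↔ (m : G) * z * (m : G)⁻¹ ∈ S := by
      intro z
      constructor
      · rintro ⟨w, hw, rfl⟩
        exact ⟨m * w * m⁻¹, (Subgroup.mem_normalizer_iff.1 hm w).1 hw, rfl⟩
      · rintro ⟨w, hw, e⟩
        refine ⟨m⁻¹ * w * m, (Subgroup.mem_normalizer_iff.1 hm _).2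
          (by rwa [show m * (m⁻¹ * w * m) * m⁻¹ = w by group]), ?_⟩
        change (m : G)⁻¹ * (N.subtype w) * m = z
        rw [e]; group
    refine ⟨m, fun z => ⟨fun hz => ⟨(hS z).1 hz.1, fun w hw => ?_⟩,
      fun hz => ⟨(hS z).2 hz.1, fun w hw => ?_⟩⟩, ?_⟩
    · have h2 := hz.2 ((m : G)⁻¹ * w * m) ((hS _).2 (by simpa [mul_assoc] using hw))
      calc w * (m * z * (m : G)⁻¹) = m * (((m : G)⁻¹ * w * m) * z) * (m : G)⁻¹ := by group
        _ = _ := by rw [h2]; group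
    · have h2 := hz.2 _ ((hS w).1 hw)
      calc w * z = (m : G)⁻¹ * ((m * w * (m : G)⁻¹) * (m * z * (m : G)⁻¹)) * m := by group
        _ = _ := by rw [h2]; group
    · have e : (m : G) = g σ * (k : G)⁻¹ := by
        have : (m : G) * k = g σ := congrArg Subtype.val hmk
        rw [← this]; group
      rw [e]
      simpa using (hg σ).mul (Act.inv hk)

/-- the two possible shapes of the normaliser are both impossible -/
theorem sharp (hlf : ∀ s : Set G, s.Finite → Finite (Subgroup.closure s))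
    (hnorm : ∀ Z : Subgroup G, (∃ z ∈ Z, z ≠ 1) → (∀ z ∈ Z, ∀ w ∈ Z, z * w = w * z) →
      (∀ a b c d : G, (∀ z ∈ Z, a * z * a⁻¹ ∈ Z) → (∀ z ∈ Z, b * z * b⁻¹ ∈ Z) →
        (∀ z ∈ Z, c * z * c⁻¹ ∈ Z) → (∀ z ∈ Z, d * z * d⁻¹ ∈ Z) →
        (a * b * a⁻¹ * b⁻¹) * (c * d * c⁻¹ * d⁻¹) = (c * d * c⁻¹ * d⁻¹) * (a * b * a⁻¹ * b⁻¹)) ∨
      ∀ a : G, (∀ z ∈ Z, a * z * a⁻¹ ∈ Z) → a ^ 6 ∈ Z)
    (h4 : MulAction.IsMultiplyPretransitive G Ω 4) (x : Fin 4 ↪ Ω) (h : G) (hx : Act x h 1) :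
    h = 1 := by
  by_contra h1
  obtain ⟨Z, z1, z2, z3, z4⟩ := frattini hlf h4 x h h1 hx
  choose m hm1 hm2 using z4
  have hm : ∀ σ, ∀ z ∈ Z, m σ * z * (m σ)⁻¹ ∈ Z := fun σ z hz => (hm1 σ z).1 hz
  rcases hnorm Z z1 z2 with h5 | h5
  · have e := h5 _ _ _ _ (hm (Equiv.swap 0 1)) (hm (Equiv.swap 1 2)) (hm (Equiv.swap 0 1))
      (hm (Equiv.swap 1 3))
    have c1 := (((hm2 (Equiv.swap 0 1)).mul (hm2 (Equiv.swap 1 2))).mul
      (hm2 (Equiv.swap 0 1)).inv).mul (hm2 (Equiv.swap 1 2)).inv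
    have c2 := (((hm2 (Equiv.swap 0 1)).mul (hm2 (Equiv.swap 1 3))).mul
      (hm2 (Equiv.swap 0 1)).inv).mul (hm2 (Equiv.swap 1 3)).inv
    have d1 := c1.mul c2
    rw [e] at d1
    exact absurd (d1.unique (c2.mul c1)) (by decide)
  · have d1 := (hm2 (finRotate 4)).pow 6
    exact absurd (d1.unique (z3 _ (h5 _ (hm _)))) (by decide)

theorem not_sharp [Infinite Ω]
    (hdih : ∀ t : G, t ≠ 1 → t * t = 1 → ∀ g h : G, g * t = t * g → h * t = t * h →
      ∃ u, (u = g ∨ u = h ∨ u = g⁻¹ * h) ∧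
        ∀ k : G, k * t = t * k → k * u * k⁻¹ = u ∨ k * u * k⁻¹ = u⁻¹)
    (h4 : MulAction.IsMultiplyPretransitive G Ω 4)
    (hs : ∀ (x : Fin 4 ↪ Ω) (h : G), Act x h 1 → h = 1) : False := by
  classical
  have hfix : ∀ (h : G) (Y : Set Ω), Y.Infinite → (∀ a ∈ Y, h • a = a) → h = 1 := by
    intro h Y hY hh
    have := hY.to_subtype
    let e : Fin 4 ↪ Y := Fin.valEmbedding.trans (Infinite.natEmbedding Y)
    exact hs (e.trans (Function.Embedding.subtype _)) h fun i => hh _ (e i).2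
  let x0 : Fin 4 ↪ Ω := Fin.valEmbedding.trans (Infinite.natEmbedding Ω)
  obtain ⟨t, ht⟩ := exists_act h4 x0 (Equiv.swap 0 1 * Equiv.swap 2 3)
  have ht2 : t * t = 1 := hs x0 _ (by
    have := ht.mul ht
    rwa [show (Equiv.swap 0 1 * Equiv.swap 2 3) * (Equiv.swap 0 1 * Equiv.swap 2 3) =
      (1 : Equiv.Perm (Fin 4)) by decide] at this)
  have ht1 : t ≠ 1 := by
    rintro rfl
    exact absurd (ht.unique (Act.one x0)) (by decide)
  have htt : ∀ a : Ω, t • t • a = a := fun a => by rw [← mul_smul, ht2, one_smul]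
  let Y : Set Ω := {a | t • a ≠ a}
  have hY : Y.Infinite := by
    by_contra hf
    have : Yᶜ.Infinite := (Set.not_infinite.1 hf).infinite_compl
    exact ht1 (hfix t _ this fun a ha => not_not.1 ha)
  have emb : ∀ a c : Ω, a ∈ Y → c ∈ Y → c ≠ a → c ≠ t • a →
      Function.Injective ![a, t • a, c, t • c] := by
    intro a c ha hc h1 h2
    have h3 : t • c ≠ a := fun e => h2 (by rw [← e, htt])
    have h4 : t • c ≠ t • a := fun e => h1 (MulAction.injective t e)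
    have ha' : t • a ≠ a := ha
    have hc' : t • c ≠ c := hc
    intro i j
    fin_cases i <;> fin_cases j <;>
      simp [h1, h2, h3, ha', hc', h1.symm, h2.symm, h3.symm, ha'.symm, hc'.symm]
  have tr : ∀ a c a' c' : Ω, a ∈ Y → c ∈ Y → c ≠ a → c ≠ t • a →
      a' ∈ Y → c' ∈ Y → c' ≠ a' → c' ≠ t • a' →
      ∃ g : G, g * t = t * g ∧ g • a = a' ∧ g • c = c' := by
    intro a c a' c' ha hc h1 h2 ha' hc' h1' h2'
    obtain ⟨g, hg⟩ := MulAction.isMultiplyPretransitive_iff.1 h4 ⟨_, emb a c ha hc h1 h2⟩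
      ⟨_, emb a' c' ha' hc' h1' h2'⟩
    have g0 : g • a = a' := DFunLike.congr_fun hg 0
    have g1 : g • t • a = t • a' := DFunLike.congr_fun hg 1
    have g2 : g • c = c' := DFunLike.congr_fun hg 2
    have g3 : g • t • c = t • c' := DFunLike.congr_fun hg 3
    refine ⟨g, ?_, g0, g2⟩
    have := hs ⟨_, emb a c ha hc h1 h2⟩ (g⁻¹ * t * g * t) (by
      intro i
      fin_cases i
      · change (g⁻¹ * t * g * t) • a = a
        rw [mul_smul, mul_smul, mul_smul, g1, htt, inv_smul_eq_iff, g0]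
      · change (g⁻¹ * t * g * t) • t • a = t • a
        rw [mul_smul, mul_smul, mul_smul, htt, g0, inv_smul_eq_iff, g1]
      · change (g⁻¹ * t * g * t) • c = c
        rw [mul_smul, mul_smul, mul_smul, g3, htt, inv_smul_eq_iff, g2]
      · change (g⁻¹ * t * g * t) • t • c = t • c
        rw [mul_smul, mul_smul, mul_smul, htt, g2, inv_smul_eq_iff, g3])
    calc g * t = (t * t) * (g * t) := by rw [ht2, one_mul]
      _ = t * g * (g⁻¹ * t * g * t) := by group
      _ = t * g := by rw [this, mul_one]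
  have avoid : ∀ s : Finset Ω, ∃ b ∈ Y, b ∉ s := fun s => hY.exists_notMem_finset s
  obtain ⟨a, ha, -⟩ := avoid ∅
  obtain ⟨b, hb, hb'⟩ := avoid {a, t • a}
  obtain ⟨c, hc, hc'⟩ := avoid {a, t • a, b}
  obtain ⟨d, hd, hd'⟩ := avoid {a, t • a, b, c}
  simp only [Finset.mem_insert, Finset.mem_singleton, not_or] at hb' hc' hd'
  obtain ⟨g, g1, g2, g3⟩ := tr a b a c ha hb hb'.1 hb'.2 ha hc hc'.1 hc'.2.1
  obtain ⟨h, h1, h2, h3⟩ := tr a b a d ha hb hb'.1 hb'.2 ha hd hd'.1 hd'.2.1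
  obtain ⟨u, hu, hk⟩ := hdih t ht1 ht2 g h g1 h1
  have hua : u • a = a := by
    rcases hu with rfl | rfl | rfl
    · exact g2
    · exact h2
    · rw [mul_smul, h2, inv_smul_eq_iff, g2]
  have hu1 : u = 1 := by
    refine hfix u Y hY fun a' ha' => ?_
    obtain ⟨b', hb1, hb2⟩ := avoid {a', t • a'}
    simp only [Finset.mem_insert, Finset.mem_singleton, not_or] at hb2
    obtain ⟨k, k1, k2, -⟩ := tr a' b' a b ha' hb1 hb2.1 hb2.2 ha hb hb'.1 hb'.2
    have : (k * u * k⁻¹) • a = a := by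
      rcases hk k k1 with e | e
      · rw [e, hua]
      · rw [e, inv_smul_eq_iff, hua]
    rw [mul_smul, mul_smul, ← k2, inv_smul_smul] at this
    exact MulAction.injective k this
  rcases hu with rfl | rfl | e
  · rw [hu1, one_smul] at g3
    exact hc'.2.2 g3.symm
  · rw [hu1, one_smul] at h3
    exact hd'.2.2.1 h3.symm
  · rw [hu1, eq_comm, inv_mul_eq_one] at e
    rw [e, h3] at g3
    exact hd'.2.2.2 g3

theorem no_order_four [Infinite Ω] (hlf : ∀ s : Set G, s.Finite → Finite (Subgroup.closure s))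
    (h42 : ∀ g : G, g ^ 4 = 1 → g ^ 2 = 1)
    (h4 : MulAction.IsMultiplyPretransitive G Ω 4) : False := by
  let x0 : Fin 4 ↪ Ω := Fin.valEmbedding.trans (Infinite.natEmbedding Ω)
  obtain ⟨g, hg⟩ := exists_act h4 x0 (finRotate 4)
  have := hlf {g} (Set.finite_singleton g)
  obtain ⟨n, hn, hgn⟩ := (isOfFinOrder_of_finite
    (⟨g, Subgroup.subset_closure rfl⟩ : Subgroup.closure {g})).exists_pow_eq_one
  have hgn' : g ^ n = 1 := by simpa using congrArg Subtype.val hgn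
  obtain ⟨k, m, hm, rfl⟩ := Nat.exists_eq_two_pow_mul_odd hn.ne'
  have key : ∀ k : ℕ, (g ^ m) ^ 2 ^ k = 1 → (g ^ m) ^ 2 = 1 := by
    intro k
    induction k with
    | zero => intro h; rw [pow_zero, pow_one] at h; rw [h, one_pow]
    | succ k ih =>
      intro h
      rcases k with _ | k
      · simpa using h
      · apply ih
        have := h42 ((g ^ m) ^ 2 ^ k) (by rw [← pow_mul, ← h]; congr 1; ring)
        rw [← pow_mul] at this
        rw [← this]; congr 1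
  have h2 := key k (by rw [← pow_mul, mul_comm, hgn'])
  obtain ⟨j, rfl⟩ := hm
  have d := (hg.pow (2 * j + 1)).pow 2
  rw [h2] at d
  have e := d.unique (Act.one x0)
  have e4 : finRotate 4 ^ 4 = 1 := by decide
  rw [← pow_mul, show (2 * j + 1) * 2 = 4 * j + 2 by ring, pow_add, pow_mul, e4, one_pow,
    one_mul] at e
  exact absurd e (by decide)

end Pool.Agent.MP_57df8f_al.H50
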