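import Pool.Agent.MP_57df8f_al.H50.Proj

/-! A field that is not algebraic over a finite field has a valuation with a cofinal element. -/

namespace Pool.Agent.MP_57df8f_al.H50

universe u

theorem cof_of_ufd {F : Type u} [Field F] (A : Type*) [CommRing A] [IsDomain A]
    [UniqueFactorizationMonoid A] [Algebra A F] [FaithfulSMul A F] [Algebra.IsAlgebraic A F]
    (a0 : A) (h0 : a0 ≠ 0) (hu : ¬ IsUnit a0) :
    ∃ (V : ValuationSubring F) (π : F), Cof V.valuation π := by
  obtain ⟨q, hq, -⟩ := WfDvdMonoid.exists_irreducible_factor hu h0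
  have hp : Prime q := hq.prime
  have hinj := FaithfulSMul.algebraMap_injective A F
  have hne : ∀ s : A, ¬ q ∣ s → algebraMap A F s ≠ 0 := by
    intro s hs h
    apply hs
    rw [(map_eq_zero_iff _ hinj).1 h]
    exact dvd_zero q
  let L : Subring F :=
    { carrier := {x | ∃ a s : A, ¬ q ∣ s ∧ x = algebraMap A F a / algebraMap A F s}
      mul_mem' := by
        rintro _ _ ⟨a, s, hs, rfl⟩ ⟨b, t, ht, rfl⟩
        refine ⟨a * b, s * t, fun h => (hp.dvd_or_dvd h).elim hs ht, ?_⟩
        rw [map_mul, map_mul, div_mul_div_comm]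
      one_mem' := ⟨1, 1, hp.not_dvd_one, by simp⟩
      add_mem' := by
        rintro _ _ ⟨a, s, hs, rfl⟩ ⟨b, t, ht, rfl⟩
        refine ⟨a * t + s * b, s * t, fun h => (hp.dvd_or_dvd h).elim hs ht, ?_⟩
        rw [map_add, map_mul, map_mul, map_mul, div_add_div _ _ (hne s hs) (hne t ht)]
      zero_mem' := ⟨0, 1, hp.not_dvd_one, by simp⟩
      neg_mem' := by
        rintro _ ⟨a, s, hs, rfl⟩
        exact ⟨-a, s, hs, by rw [map_neg, neg_div]⟩ }
  have hA : ∀ a : A, algebraMap A F a ∈ L := fun a => ⟨a, 1, hp.not_dvd_one, by simp⟩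
  have hI : Ideal.span {(⟨algebraMap A F q, hA q⟩ : L)} ≠ ⊤ := by
    intro h
    rw [Ideal.span_singleton_eq_top] at h
    obtain ⟨⟨_, a, s, hs, rfl⟩, hb⟩ := h.exists_right_inv
    have h1 : algebraMap A F q * (algebraMap A F a / algebraMap A F s) = 1 := congrArg Subtype.val hb
    rw [← mul_div_assoc, div_eq_one_iff_eq (hne s hs), ← map_mul] at h1
    exact hs ⟨a, (hinj h1).symm⟩
  obtain ⟨V, hLV, hV⟩ := Ideal.image_subset_nonunits_valuationSubring _ hI
  have hlt : V.valuation (algebraMap A F q) < 1 :=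
    V.mem_nonunits_iff.1 (hV ⟨_, Ideal.mem_span_singleton_self _, rfl⟩)
  have hAV : ∀ a : A, algebraMap A F a ∈ V := fun a => hLV (hA a)
  have hone : ∀ s : A, ¬ q ∣ s → V.valuation (algebraMap A F s) = 1 := by
    intro s hs
    refine le_antisymm ((V.valuation_le_one_iff _).2 (hAV s)) ?_
    have h1 : (algebraMap A F s)⁻¹ ∈ V := hLV ⟨1, s, hs, by simp⟩
    have h2 := (V.valuation_le_one_iff _).2 h1
    rw [map_inv₀, inv_le_one₀ (zero_lt_iff.2 (by simpa using hne s hs))] at h2
    exact h2
  have hq0 : algebraMap A F q ≠ 0 := (map_ne_zero_iff _ hinj).2 hp.ne_zero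
  have hbound : ∀ z : F, ∃ k : ℕ, V.valuation (algebraMap A F q) ^ k * V.valuation z ≤ 1 := by
    intro z
    obtain ⟨y, hy, hint⟩ := (Algebra.IsAlgebraic.isAlgebraic (R := A) z).exists_integral_multiple
    obtain ⟨k, s, hs, rfl⟩ := WfDvdMonoid.max_power_factor hy hq
    let _ : Algebra A V := ((algebraMap A F).codRestrict V.toSubring hAV).toAlgebra
    have : IsScalarTower A V F := .of_algebraMap_eq fun _ => rfl
    obtain ⟨w, hw⟩ := (IsIntegrallyClosed.isIntegral_iff (R := V) (K := F)).1 hint.tower_top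
    have h1 : V.valuation ((q ^ k * s) • z) ≤ 1 := by
      rw [← hw]; exact V.valuation_le_one w
    rw [Algebra.smul_def, map_mul, map_mul, map_mul, hone s hs, mul_one, map_pow, map_pow] at h1
    exact ⟨k, h1⟩
  refine ⟨V, algebraMap A F q, hq0, hlt, fun x y hy => ?_⟩
  obtain ⟨k, hk⟩ := hbound (x / y)
  have py : 0 < V.valuation y := zero_lt_iff.2 (by simpa using hy)
  refine ⟨k + 1, ?_⟩
  rw [map_div₀, ← mul_div_assoc, div_le_one₀ py] at hk
  calc V.valuation (algebraMap A F q) ^ (k + 1) * V.valuation x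
      = V.valuation (algebraMap A F q) * (V.valuation (algebraMap A F q) ^ k * V.valuation x) := by
        rw [pow_succ', mul_assoc]
    _ ≤ V.valuation (algebraMap A F q) * V.valuation y := by gcongr
    _ < 1 * V.valuation y := by gcongr
    _ = _ := one_mul _

theorem cof_of_basis {F : Type u} [Field F] (R : Type*) [CommRing R] [IsDomain R]
    [UniqueFactorizationMonoid R] [Algebra R F] {ι : Type*} (x : ι → F)
    (hx : IsTranscendenceBasis R x) (a0 : MvPolynomial ι R) (h0 : a0 ≠ 0)
    (hu : ¬ IsUnit (MvPolynomial.constantCoeff a0)) :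
    ∃ (V : ValuationSubring F) (π : F), Cof V.valuation π := by
  let e := hx.1.aevalEquiv
  have : UniqueFactorizationMonoid (Algebra.adjoin R (Set.range x)) :=
    e.toMulEquiv.uniqueFactorizationMonoid inferInstance
  have := hx.isAlgebraic
  refine cof_of_ufd (Algebra.adjoin R (Set.range x)) (e a0) (by simpa using h0) fun h => hu ?_
  have h1 : IsUnit a0 := by simpa using h.map e.symm
  exact h1.map _

theorem exists_cof {F : Type u} [Field F]
    (hF : ¬ (ringChar F ≠ 0 ∧ Algebra.IsAlgebraic (⊥ : Subfield F) F)) :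
    ∃ (V : ValuationSubring F) (π : F), Cof V.valuation π := by
  by_cases h : Algebra.IsAlgebraic (⊥ : Subfield F) F
  · have h0 : ringChar F = 0 := by
      by_contra h0
      exact hF ⟨h0, h⟩
    have : CharP F 0 := h0 ▸ ringChar.charP F
    have : CharZero F := CharP.charP_to_charZero F
    obtain ⟨s, hs⟩ := exists_isTranscendenceBasis ℤ F
    refine cof_of_basis ℤ _ hs (MvPolynomial.C 2) (by simp) ?_
    rw [MvPolynomial.constantCoeff_C, Int.isUnit_iff]
    omega
  · obtain ⟨s, hs⟩ := exists_isTranscendenceBasis (⊥ : Subfield F) F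
    have : Nonempty s := by
      by_contra hn
      exact h (hs.isEmpty_iff_isAlgebraic.1 (not_nonempty_iff.1 hn))
    obtain ⟨i⟩ := this
    exact cof_of_basis (⊥ : Subfield F) _ hs (MvPolynomial.X i) (MvPolynomial.X_ne_zero i)
      (by simp)

theorem torsion_of_algebraic {F : Type u} [Field F] (h0 : ringChar F ≠ 0)
    (h : Algebra.IsAlgebraic (⊥ : Subfield F) F) (x : Fˣ) : IsOfFinOrder x := by
  have hp : (ringChar F).Prime := (CharP.char_is_prime_or_zero F (ringChar F)).resolve_right h0
  have : Fact (ringChar F).Prime := ⟨hp⟩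
  have hfin : Finite (⊥ : Subfield F) := by
    have hle : (⊥ : Subfield F) ≤ (ZMod.castHom (dvd_refl (ringChar F)) F).fieldRange := bot_le
    have : Finite (ZMod.castHom (dvd_refl (ringChar F)) F).fieldRange :=
      Set.finite_range (ZMod.castHom (dvd_refl (ringChar F)) F)
    exact Finite.of_injective _ (Subfield.inclusion hle).injective
  have hint : IsIntegral (⊥ : Subfield F) (x : F) := (h.isAlgebraic _).isIntegral
  let K := IntermediateField.adjoin (⊥ : Subfield F) {(x : F)}
  have : FiniteDimensional (⊥ : Subfield F) K := IntermediateField.adjoin.finiteDimensional hint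
  have : Finite K := Module.finite_of_finite (⊥ : Subfield F)
  let y : K := ⟨x, IntermediateField.mem_adjoin_simple_self _ _⟩
  have hy : y ≠ 0 := fun e => x.ne_zero (congrArg Subtype.val e)
  obtain ⟨n, hn, hyn⟩ := (isOfFinOrder_of_finite (Units.mk0 y hy)).exists_pow_eq_one
  refine isOfFinOrder_iff_pow_eq_one.2 ⟨n, hn, ?_⟩
  ext
  have := congrArg (fun u : Kˣ => ((u : K) : F)) hyn
  simpa using this

end Pool.Agent.MP_57df8f_al.H50
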