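import Pool.Agent.MP_57df8f_al.H50.Frattini
import Pool.Agent.MP_57df8f_al.H50.Val

/-! Matrix part: structure of centralisers and normalisers in `PGL(2, F)`. -/

namespace Pool.Agent.MP_57df8f_al.H50

open Matrix Matrix.ProjGenLinGroup
open scoped MatrixGroups LinearAlgebra.Projectivization

variable {F : Type*} [Field F]

abbrev M2 (F : Type*) := Matrix (Fin 2) (Fin 2) F

theorem mk_eq_mk_smul {A B : GL (Fin 2) F} :
    (mk A : PGL(2, F)) = mk B ↔ ∃ c : F, B.val = c • A.val := by
  rw [mk_eq_mk_iff]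
  constructor
  · rintro ⟨u, rfl⟩
    refine ⟨u, ?_⟩
    ext i j
    simp [Matrix.mul_apply, Matrix.diagonal_apply, mul_comm]
  · rintro ⟨c, hc⟩
    have hc0 : c ≠ 0 := by
      rintro rfl
      apply B.det_ne_zero
      rw [hc]; simp
    refine ⟨Units.mk0 c hc0, ?_⟩
    ext i j
    rw [hc]
    simp [Matrix.mul_apply, Matrix.diagonal_apply, mul_comm]

theorem mk_eq_one_smul {A : GL (Fin 2) F} :
    (mk A : PGL(2, F)) = 1 ↔ ∃ c : F, A.val = c • (1 : M2 F) := by
  rw [← mk_one, eq_comm, mk_eq_mk_smul]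
  rfl

theorem comm_or_anti {A B : GL (Fin 2) F} (h : (mk A : PGL(2, F)) * mk B = mk B * mk A) :
    A.val * B.val = B.val * A.val ∨ A.val * B.val = -(B.val * A.val) := by
  rw [← map_mul, ← map_mul, eq_comm, mk_eq_mk_smul] at h
  obtain ⟨c, hc⟩ := h
  simp only [Units.val_mul] at hc
  have hd := congrArg Matrix.det hc
  rw [det_smul, det_mul, det_mul, Fintype.card_fin, mul_comm B.val.det] at hd
  have h1 : c ^ 2 = 1 := by
    have := mul_ne_zero A.det_ne_zero B.det_ne_zero
    exact (mul_eq_right₀ this).1 hd.symm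
  rcases sq_eq_one_iff.1 h1 with rfl | rfl
  · left; simpa using hc
  · right; simpa using hc

theorem of_comm {A X : M2 F} (hA : ¬ ∃ c : F, A = c • (1 : M2 F)) (h : X * A = A * X) :
    ∃ α β : F, X = α • A + β • (1 : M2 F) := by
  have e00 := congrFun (congrFun h 0) 0
  have e01 := congrFun (congrFun h 0) 1
  have e10 := congrFun (congrFun h 1) 0
  simp only [Matrix.mul_apply, Fin.sum_univ_two] at e00 e01 e10
  have fin : ∀ α : F, X 0 1 = α * A 0 1 → X 1 0 = α * A 1 0 →
      X 0 0 - X 1 1 = α * (A 0 0 - A 1 1) → ∃ α β : F, X = α • A + β • (1 : M2 F) := by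
    intro α h1 h2 h3
    refine ⟨α, X 0 0 - α * A 0 0, ?_⟩
    ext i j
    fin_cases i <;> fin_cases j <;> simp [h1, h2]
    linear_combination -h3
  by_cases hb : A 0 1 = 0
  · by_cases hc : A 1 0 = 0
    · have hd : A 0 0 - A 1 1 ≠ 0 := by
        intro hd
        apply hA
        refine ⟨A 0 0, ?_⟩
        ext i j
        fin_cases i <;> fin_cases j <;> simp [hb, hc]
        linear_combination -hd
      refine fin ((X 0 0 - X 1 1) / (A 0 0 - A 1 1)) ?_ ?_ (by field_simp)
      · field_simp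
        linear_combination -e01
      · field_simp
        linear_combination e10
    · refine fin (X 1 0 / A 1 0) ?_ (by field_simp) ?_
      · field_simp
        linear_combination e00
      · field_simp
        linear_combination -e10
  · refine fin (X 0 1 / A 0 1) (by field_simp) ?_ ?_
    · field_simp
      linear_combination -e00
    · field_simp
      linear_combination e01

theorem comm_of_comm {A X Y : M2 F} (hA : ¬ ∃ c : F, A = c • (1 : M2 F)) (hX : X * A = A * X)
    (hY : Y * A = A * Y) : X * Y = Y * X := by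
  obtain ⟨a, b, rfl⟩ := of_comm hA hX
  obtain ⟨c, d, rfl⟩ := of_comm hA hY
  simp only [add_mul, mul_add, smul_mul_assoc, mul_smul_comm, one_mul, mul_one]
  module

theorem lf (h0 : ringChar F ≠ 0) (h : Algebra.IsAlgebraic (⊥ : Subfield F) F)
    (s : Set PGL(2, F)) (hs : s.Finite) : Finite (Subgroup.closure s) := by
  have hp : (ringChar F).Prime := (CharP.char_is_prime_or_zero F (ringChar F)).resolve_right h0
  have : Fact (ringChar F).Prime := ⟨hp⟩
  have hfin : Finite (⊥ : Subfield F) := by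
    have hle : (⊥ : Subfield F) ≤ (ZMod.castHom (dvd_refl (ringChar F)) F).fieldRange := bot_le
    have : Finite (ZMod.castHom (dvd_refl (ringChar F)) F).fieldRange :=
      Set.finite_range (ZMod.castHom (dvd_refl (ringChar F)) F)
    exact Finite.of_injective _ (Subfield.inclusion hle).injective
  choose l hl using (mk_surjective : Function.Surjective (mk : GL (Fin 2) F → PGL(2, F)))
  have := hs.to_subtype
  let E : Set F := Set.range fun z : s × Fin 2 × Fin 2 => (l z.1).val z.2.1 z.2.2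
  have : Finite E := Set.finite_range _
  let K := IntermediateField.adjoin (⊥ : Subfield F) E
  have : FiniteDimensional (⊥ : Subfield F) K :=
    IntermediateField.finiteDimensional_adjoin fun x _ => (h.isAlgebraic x).isIntegral
  have : Finite K := Module.finite_of_finite (⊥ : Subfield F)
  let φ : GL (Fin 2) K →* PGL(2, F) := mk.comp (Matrix.GeneralLinearGroup.map (algebraMap K F))
  have : Finite φ.range := Set.finite_range φ
  have hle : Subgroup.closure s ≤ φ.range := by
    refine (Subgroup.closure_le _).2 fun z hz => ?_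
    let A : M2 K := fun i j => ⟨(l z).val i j, IntermediateField.subset_adjoin _ _ ⟨⟨⟨z, hz⟩, i, j⟩, rfl⟩⟩
    have hA : A.map (algebraMap K F) = (l z).val := by ext i j; rfl
    have hd : A.det ≠ 0 := by
      intro e
      apply (l z).det_ne_zero
      rw [← hA]
      have := (algebraMap K F).map_det A
      rw [e, map_zero] at this
      exact this.symm
    refine ⟨Matrix.GeneralLinearGroup.mkOfDetNeZero A hd, ?_⟩
    rw [← hl z]
    change mk _ = mk _
    congr 1
    ext i j
    rfl
  exact Finite.of_injective _ (Subgroup.inclusion_injective hle)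

theorem cayley (A : M2 F) : A * A = A.trace • A - A.det • (1 : M2 F) := by
  ext i j
  fin_cases i <;> fin_cases j <;>
    simp [Matrix.mul_apply, Fin.sum_univ_two, Matrix.trace_fin_two, Matrix.det_fin_two] <;> ring

theorem four_two (h2 : (2 : F) = 0) (g : PGL(2, F)) (h : g ^ 4 = 1) : g ^ 2 = 1 := by
  obtain ⟨U, rfl⟩ := mk_surjective g
  rw [← map_pow, mk_eq_one_smul] at h ⊢
  obtain ⟨c, hc⟩ := h
  have e2 : (U ^ 2).val = U.val * U.val := by rw [Units.val_pow_eq_pow_val, sq]
  have e4 : (U ^ 4).val = (U.val * U.val) * (U.val * U.val) := by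
    rw [Units.val_pow_eq_pow_val]; noncomm_ring
  rw [e2]
  by_cases ht : U.val.trace = 0
  · exact ⟨-U.val.det, by rw [cayley, ht]; module⟩
  · have e5 : (U.val * U.val) * (U.val * U.val) =
        (U.val.trace ^ 2) • (U.val * U.val) + (U.val.det ^ 2) • (1 : M2 F) -
          (2 * (U.val.trace * U.val.det)) • U.val := by
      conv_lhs => rw [cayley U.val]
      simp only [sub_mul, mul_sub, smul_mul_assoc, mul_smul_comm, one_mul, mul_one]
      module
    rw [e4, e5, h2, zero_mul, zero_smul, sub_zero] at hc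
    refine ⟨(U.val.trace ^ 2)⁻¹ * (c - U.val.det ^ 2), ?_⟩
    rw [mul_smul, sub_smul, ← hc, add_sub_cancel_right, smul_smul, inv_mul_cancel₀ (pow_ne_zero _ ht),
      one_smul]

theorem dihedral (t : PGL(2, F)) (h1 : t ≠ 1) (h2 : t * t = 1) (g h : PGL(2, F))
    (hg : g * t = t * g) (hh : h * t = t * h) :
    ∃ u, (u = g ∨ u = h ∨ u = g⁻¹ * h) ∧
      ∀ k : PGL(2, F), k * t = t * k → k * u * k⁻¹ = u ∨ k * u * k⁻¹ = u⁻¹ := by
  obtain ⟨A, rfl⟩ := mk_surjective t
  obtain ⟨g, rfl⟩ := mk_surjective g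
  obtain ⟨h, rfl⟩ := mk_surjective h
  have hA : ¬ ∃ c : F, A.val = c • (1 : M2 F) := fun e => h1 (mk_eq_one_smul.2 e)
  rw [← map_mul, mk_eq_one_smul] at h2
  obtain ⟨δ, hδ⟩ := h2
  rw [Units.val_mul] at hδ
  have key : ∀ U : GL (Fin 2) F, U.val * A.val = A.val * U.val → ∀ k : PGL(2, F),
      k * mk A = mk A * k → k * mk U * k⁻¹ = mk U ∨ k * mk U * k⁻¹ = (mk U)⁻¹ := by
    intro U hU k hk
    obtain ⟨K, rfl⟩ := mk_surjective k
    rcases comm_or_anti hk with e | e
    · left
      rw [mul_inv_eq_iff_eq_mul, ← map_mul, ← map_mul]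
      congr 1
      exact Units.ext (comm_of_comm hA e hU)
    · right
      obtain ⟨α, β, hUe⟩ := of_comm hA hU
      rw [eq_inv_iff_mul_eq_one, mul_assoc, mul_eq_one_comm, mul_assoc, inv_mul_eq_one,
        ← map_mul, ← map_mul, mk_eq_mk_smul]
      refine ⟨β ^ 2 - α ^ 2 * δ, ?_⟩
      have e3 : A.val * (K.val * A.val) = -(δ • K.val) := by
        rw [e, mul_neg, ← mul_assoc, hδ, smul_mul_assoc, one_mul]
      simp only [Units.val_mul, hUe, add_mul, mul_add, smul_mul_assoc, mul_smul_comm, one_mul,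
        mul_one, e3]
      rw [e]
      module
  rcases comm_or_anti hg with e | e
  · exact ⟨_, Or.inl rfl, key g e⟩
  rcases comm_or_anti hh with e' | e'
  · exact ⟨_, Or.inr (Or.inl rfl), key h e'⟩
  refine ⟨mk (g⁻¹ * h), Or.inr (Or.inr (by simp)), key _ ?_⟩
  have e4 : (g⁻¹).val * A.val = -(A.val * (g⁻¹).val) := by
    calc (g⁻¹).val * A.val = (g⁻¹).val * (A.val * g.val) * (g⁻¹).val := by
          simp [mul_assoc]
      _ = (g⁻¹).val * (-(g.val * A.val)) * (g⁻¹).val := by rw [e, neg_neg]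
      _ = _ := by simp [← mul_assoc]
  rw [Units.val_mul, mul_assoc, e', mul_neg, ← mul_assoc, e4, neg_mul, neg_neg, mul_assoc]

theorem klein (h2 : (2 : F) ≠ 0) {A B : GL (Fin 2) F} (hAB : A.val * B.val = -(B.val * A.val))
    (w : PGL(2, F)) (hA : w * mk A = mk A * w) (hB : w * mk B = mk B * w) :
    w = 1 ∨ w = (mk A)⁻¹ ∨ w = (mk B)⁻¹ ∨ w = (mk A * mk B)⁻¹ := by
  have hne : A.val * B.val ≠ 0 := by
    intro e
    have := (A * B).det_ne_zero
    rw [Units.val_mul, e] at this
    simp at this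
  have hcomm : ∀ α : F, α • (A.val * B.val) = α • (B.val * A.val) → α = 0 := by
    intro α e
    have e1 : B.val * A.val = -(A.val * B.val) := by rw [hAB, neg_neg]
    rw [e1, smul_neg, ← add_eq_zero_iff_eq_neg, ← two_smul F, smul_smul, smul_eq_zero] at e
    exact (mul_eq_zero.1 (e.resolve_right hne)).resolve_left h2
  have hAs : ¬ ∃ c : F, A.val = c • (1 : M2 F) := by
    rintro ⟨c, hc⟩
    exact one_ne_zero (hcomm 1 (by rw [hc]; simp))
  have key : ∀ W : GL (Fin 2) F, W.val * A.val = A.val * W.val → W.val * B.val = B.val * W.val →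
      (mk W : PGL(2, F)) = 1 := by
    intro W e1 e2
    obtain ⟨α, β, hW⟩ := of_comm hAs e1
    rw [hW] at e2
    simp only [add_mul, mul_add, smul_mul_assoc, mul_smul_comm, one_mul, mul_one,
      add_left_inj] at e2
    rw [hcomm α e2, zero_smul, zero_add] at hW
    exact mk_eq_one_smul.2 ⟨β, hW⟩
  obtain ⟨W, rfl⟩ := mk_surjective w
  have hBA : B.val * A.val = -(A.val * B.val) := by rw [hAB, neg_neg]
  rcases comm_or_anti hA with e | e <;> rcases comm_or_anti hB with e' | e'
  · exact Or.inl (key W e e')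
  · refine Or.inr (Or.inl ?_)
    rw [eq_inv_iff_mul_eq_one, ← map_mul]
    refine key _ ?_ ?_
    · rw [Units.val_mul, ← mul_assoc, ← e]
    · rw [Units.val_mul, mul_assoc, hAB, mul_neg, ← mul_assoc, e', neg_mul, neg_neg, mul_assoc]
  · refine Or.inr (Or.inr (Or.inl ?_))
    rw [eq_inv_iff_mul_eq_one, ← map_mul]
    refine key _ ?_ ?_
    · rw [Units.val_mul, mul_assoc, hBA, mul_neg, ← mul_assoc, e, neg_mul, neg_neg, mul_assoc]
    · rw [Units.val_mul, ← mul_assoc, ← e']
  · refine Or.inr (Or.inr (Or.inr ?_))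
    rw [eq_inv_iff_mul_eq_one, ← map_mul, ← map_mul]
    refine key _ ?_ ?_
    · rw [Units.val_mul, Units.val_mul, mul_assoc, mul_assoc, hBA, mul_neg, mul_neg, ← mul_assoc, e,
        neg_mul, neg_neg, mul_assoc]
    · have e1 : B.val * W.val = -(W.val * B.val) := by rw [e', neg_neg]
      rw [Units.val_mul, Units.val_mul, ← mul_assoc B.val, e1, neg_mul, mul_assoc W.val B.val,
        ← mul_assoc B.val, hBA, neg_mul, mul_neg, neg_neg, mul_assoc]

theorem norm_shape (h2 : (2 : F) ≠ 0) (Z : Subgroup PGL(2, F)) (h1 : ∃ z ∈ Z, z ≠ 1)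
    (hc : ∀ z ∈ Z, ∀ w ∈ Z, z * w = w * z) :
    (∀ a b c d : PGL(2, F), (∀ z ∈ Z, a * z * a⁻¹ ∈ Z) → (∀ z ∈ Z, b * z * b⁻¹ ∈ Z) →
        (∀ z ∈ Z, c * z * c⁻¹ ∈ Z) → (∀ z ∈ Z, d * z * d⁻¹ ∈ Z) →
        (a * b * a⁻¹ * b⁻¹) * (c * d * c⁻¹ * d⁻¹) = (c * d * c⁻¹ * d⁻¹) * (a * b * a⁻¹ * b⁻¹)) ∨
      ∀ a : PGL(2, F), (∀ z ∈ Z, a * z * a⁻¹ ∈ Z) → a ^ 6 ∈ Z := by
  classical
  by_cases hall : ∀ A B : GL (Fin 2) F, mk A ∈ Z → mk B ∈ Z → A.val * B.val = B.val * A.val
  · left
    obtain ⟨z, hz, hz1⟩ := h1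
    obtain ⟨A, rfl⟩ := mk_surjective z
    have hA : ¬ ∃ c : F, A.val = c • (1 : M2 F) := fun e => hz1 (mk_eq_one_smul.2 e)
    set A0 : M2 F := (2 : F) • A.val - A.val.trace • (1 : M2 F) with hA0
    have hA0s : ¬ ∃ c : F, A0 = c • (1 : M2 F) := by
      rintro ⟨c, hc⟩
      refine hA ⟨2⁻¹ * (c + A.val.trace), ?_⟩
      rw [mul_smul, add_smul, ← hc, hA0, sub_add_cancel, smul_smul, inv_mul_cancel₀ h2, one_smul]
    have scal : ∀ K : GL (Fin 2) F, (∀ z ∈ Z, mk K * z * (mk K)⁻¹ ∈ Z) →
        ∃ α : F, K.val * A0 = α • (A0 * K.val) := by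
      intro K hK
      have h3 := hall (K * A * K⁻¹) A (by simpa using hK _ hz) hz
      obtain ⟨α, β, e⟩ := of_comm hA h3
      have htr : A.val.trace = α * A.val.trace + 2 * β := by
        have := congrArg Matrix.trace e
        rw [Units.val_mul, Units.val_mul, Matrix.trace_mul_cycle, Units.inv_mul, one_mul] at this
        refine this.trans ?_
        simp [mul_comm]
      have e2 : K.val * A.val = (α • A.val + β • (1 : M2 F)) * K.val := by
        rw [← e, Units.val_mul, Units.val_mul, mul_assoc, Units.inv_mul, mul_one]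
      refine ⟨α, ?_⟩
      simp only [hA0, mul_sub, sub_mul, add_mul, smul_mul_assoc, mul_smul_comm, one_mul, mul_one,
        e2]
      have : A.val.trace • K.val = (α * A.val.trace + 2 * β) • K.val := by rw [← htr]
      conv_lhs => rw [this]
      module
    have comm : ∀ K L : GL (Fin 2) F, (∀ z ∈ Z, mk K * z * (mk K)⁻¹ ∈ Z) →
        (∀ z ∈ Z, mk L * z * (mk L)⁻¹ ∈ Z) →
        (K * L * K⁻¹ * L⁻¹).val * A0 = A0 * (K * L * K⁻¹ * L⁻¹).val := by
      intro K L hK hL
      obtain ⟨α, hα⟩ := scal K hK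
      obtain ⟨β, hβ⟩ := scal L hL
      have e1 : (K * L).val * A0 = (α * β) • (A0 * (K * L).val) := by
        rw [Units.val_mul, mul_assoc, hβ, mul_smul_comm, ← mul_assoc, hα, smul_mul_assoc,
          smul_smul, mul_assoc, mul_comm β]
      have e2 : (L * K).val * A0 = (α * β) • (A0 * (L * K).val) := by
        rw [Units.val_mul, mul_assoc, hα, mul_smul_comm, ← mul_assoc, hβ, smul_mul_assoc,
          smul_smul, mul_assoc]
      have e3 : K * L * K⁻¹ * L⁻¹ = (K * L) * (L * K)⁻¹ := by group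
      rw [e3]
      generalize K * L = X at e1
      generalize L * K = Y at e2
      have hαβ : α * β ≠ 0 := by
        intro e
        rw [e, zero_smul] at e1
        apply hA0s
        refine ⟨0, ?_⟩
        rw [zero_smul, ← Units.inv_mul_cancel_left X A0, e1, mul_zero]
      have e4 : A0 * (Y⁻¹).val = (α * β) • ((Y⁻¹).val * A0) := by
        calc A0 * (Y⁻¹).val = (Y⁻¹).val * (Y.val * A0) * (Y⁻¹).val := by simp
          _ = _ := by rw [e2]; simp [mul_assoc]
      apply smul_right_injective _ hαβ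
      simp only [Units.val_mul]
      rw [mul_assoc, ← mul_smul_comm, ← e4, ← mul_assoc, e1, smul_mul_assoc, mul_assoc]
    intro a b c d ha hb hc' hd
    obtain ⟨a, rfl⟩ := mk_surjective a
    obtain ⟨b, rfl⟩ := mk_surjective b
    obtain ⟨c, rfl⟩ := mk_surjective c
    obtain ⟨d, rfl⟩ := mk_surjective d
    have := comm_of_comm hA0s (comm a b ha hb) (comm c d hc' hd)
    have e : (a * b * a⁻¹ * b⁻¹) * (c * d * c⁻¹ * d⁻¹) =
        (c * d * c⁻¹ * d⁻¹) * (a * b * a⁻¹ * b⁻¹) := Units.ext this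
    simpa using congrArg (mk : GL (Fin 2) F → PGL(2, F)) e
  · right
    push Not at hall
    obtain ⟨A, B, hA, hB, hAB⟩ := hall
    have hanti := (comm_or_anti (hc _ hA _ hB)).resolve_left hAB
    have hZ : ∀ w : PGL(2, F), w * mk A = mk A * w → w * mk B = mk B * w → w ∈ Z := by
      intro w e1 e2
      rcases klein h2 hanti w e1 e2 with rfl | rfl | rfl | rfl
      · exact Z.one_mem
      · exact Z.inv_mem hA
      · exact Z.inv_mem hB
      · exact Z.inv_mem (Z.mul_mem hA hB)
    intro a ha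
    let T := {z : PGL(2, F) // z ∈ Z ∧ z ≠ 1}
    let T' : Finset PGL(2, F) := {(mk A)⁻¹, (mk B)⁻¹, (mk A * mk B)⁻¹}
    let ι : T → T' := fun z => ⟨z.1, by
      have := klein h2 hanti z.1 (hc _ z.2.1 _ hA) (hc _ z.2.1 _ hB)
      simpa [T', z.2.2] using this⟩
    have hι : Function.Injective ι := fun z w e => Subtype.ext (congrArg (fun y : T' => y.1) e)
    have : Finite T := Finite.of_injective ι hι
    have hcard : Nat.card T ≤ 3 := by
      refine (Nat.card_le_card_of_injective ι hι).trans ?_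
      rw [Nat.card_eq_fintype_card, Fintype.card_coe]
      exact Finset.card_le_three
    let f : T → T := fun z => ⟨a * z.1 * a⁻¹, ha _ z.2.1, fun e => z.2.2 (by simpa using e)⟩
    have hf : Function.Injective f := fun z w e => Subtype.ext (by
      have := congrArg Subtype.val e
      simpa [f] using this)
    let σ : Equiv.Perm T := Equiv.ofBijective f (Finite.injective_iff_bijective.1 hf)
    have hσ : σ ^ 6 = 1 := by
      obtain ⟨c, hc⟩ := Nat.factorial_dvd_factorial hcard
      rw [show 6 = Nat.factorial 3 from rfl, hc, pow_mul, ← Nat.card_perm, pow_card_eq_one',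
        one_pow]
    have hpow : ∀ (n : ℕ) (z : T), ((σ ^ n) z).1 = a ^ n * z.1 * (a ^ n)⁻¹ := by
      intro n
      induction n with
      | zero => simp
      | succ n ih =>
        intro z
        rw [pow_succ', Equiv.Perm.mul_apply]
        change a * ((σ ^ n) z).1 * a⁻¹ = _
        rw [ih, pow_succ']
        group
    have hfix : ∀ z ∈ Z, a ^ 6 * z = z * a ^ 6 := by
      intro z hz
      by_cases hz1 : z = 1
      · simp [hz1]
      · have := hpow 6 ⟨z, hz, hz1⟩
        rw [hσ] at this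
        exact (eq_mul_inv_iff_mul_eq.1 this).symm
    exact hZ _ (hfix _ hA) (hfix _ hB)

theorem not_four_transitive (h0 : ringChar F ≠ 0) (h : Algebra.IsAlgebraic (⊥ : Subfield F) F)
    (Ω : Type*) [MulAction PGL(2, F) Ω] [Infinite Ω] :
    ¬ MulAction.IsMultiplyPretransitive PGL(2, F) Ω 4 := by
  intro h4
  by_cases h2 : (2 : F) = 0
  · exact no_order_four (lf h0 h) (four_two h2) h4
  · exact not_sharp dihedral h4 (sharp (lf h0 h) (norm_shape h2) h4)

theorem infinite_proj [Infinite F] : Infinite (ℙ F (Fin 2 → F)) := by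
  have hne : ∀ x : F, (![1, x] : Fin 2 → F) ≠ 0 := fun x e => by simpa using congrFun e 0
  refine Infinite.of_injective (fun x : F => Projectivization.mk F ![1, x] (hne x)) fun x y e => ?_
  obtain ⟨t, ht⟩ := (Projectivization.mk_eq_mk_iff' F _ _ _ _).1 e
  have e0 := congrFun ht 0
  have e1 := congrFun ht 1
  simp at e0 e1
  rw [e0, one_mul] at e1
  exact e1.symm

theorem faithful_proj [Infinite F] : FaithfulSMul PGL(2, F) (ℙ F (Fin 2 → F)) := by
  have := infinite_proj (F := F)
  refine faithfulSMul_iff.2 fun g hg => ?_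
  by_contra h1
  exact Set.infinite_univ ((fix_finite g h1).subset fun x _ => hg x)

theorem three_transitive : MulAction.IsMultiplyPretransitive PGL(2, F) (ℙ F (Fin 2 → F)) 3 := by
  rw [MulAction.isMultiplyPretransitive_iff]
  have key : ∀ x : Fin 3 ↪ ℙ F (Fin 2 → F), ∃ (a b : Fin 2 → F) (ha : a ≠ 0) (hb : b ≠ 0)
      (hab : a + b ≠ 0), wedge a b ≠ 0 ∧ x 0 = .mk F a ha ∧ x 1 = .mk F b hb ∧
        x 2 = .mk F (a + b) hab := by
    intro x
    have w01 := wedge_rep_ne (x.injective.ne (show (0 : Fin 3) ≠ 1 by decide))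
    have w21 := wedge_rep_ne (x.injective.ne (show (2 : Fin 3) ≠ 1 by decide))
    have w02 := wedge_rep_ne (x.injective.ne (show (0 : Fin 3) ≠ 2 by decide))
    have e : wedge (x 2).rep (x 1).rep • (x 0).rep + wedge (x 0).rep (x 2).rep • (x 1).rep =
        wedge (x 0).rep (x 1).rep • (x 2).rep := by
      ext i
      fin_cases i <;> simp [wedge] <;> ring
    have m : ∀ (p : ℙ F (Fin 2 → F)) (c : F) (v : Fin 2 → F) (hv : v ≠ 0), v = c • p.rep →
        p = .mk F v hv := by
      intro p c v hv e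
      conv_lhs => rw [← Projectivization.mk_rep p]
      rw [eq_comm, Projectivization.mk_eq_mk_iff']
      exact ⟨c, e.symm⟩
    refine ⟨_, _, smul_ne_zero w21 (x 0).rep_nonzero, smul_ne_zero w02 (x 1).rep_nonzero,
      e ▸ smul_ne_zero w01 (x 2).rep_nonzero, ?_, m _ _ _ _ rfl, m _ _ _ _ rfl, m _ _ _ _ e⟩
    rw [wedge_smul_left, wedge_smul_right]
    exact mul_ne_zero w21 (mul_ne_zero w02 w01)
  intro x y
  obtain ⟨a, b, ha, hb, hab, w, x0, x1, x2⟩ := key x
  obtain ⟨a', b', ha', hb', hab', w', y0, y1, y2⟩ := key y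
  obtain ⟨g, g1, g2⟩ := exists_gl w w'
  refine ⟨mk g, Function.Embedding.ext fun i => ?_⟩
  rw [Function.Embedding.smul_apply]
  fin_cases i
  · change _ • x 0 = y 0
    rw [x0, y0, Projectivization.PGL.mk_smul_mk]; congr 1
  · change _ • x 1 = y 1
    rw [x1, y1, Projectivization.PGL.mk_smul_mk]; congr 1
  · change _ • x 2 = y 2
    rw [x2, y2, Projectivization.PGL.mk_smul_mk]; congr 1
    rw [smul_add, g1, g2]

theorem infinite_pgl [Infinite F] : Infinite PGL(2, F) := by
  have := infinite_proj (F := F)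
  have h1 : MulAction.IsPretransitive PGL(2, F) (ℙ F (Fin 2 → F)) := by
    have := three_transitive (F := F)
    exact MulAction.is_one_pretransitive_iff.1
      (MulAction.isMultiplyPretransitive_of_le' (n := 3) (by norm_num) (by simp))
  obtain ⟨x⟩ : Nonempty (ℙ F (Fin 2 → F)) := inferInstance
  exact Infinite.of_surjective (fun g : PGL(2, F) => g • x) (MulAction.surjective_smul _ x)

theorem infinite_of_faithful [Infinite F] (Ω : Type*) [MulAction PGL(2, F) Ω]
    [FaithfulSMul PGL(2, F) Ω] : Infinite Ω := by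
  have := infinite_pgl (F := F)
  by_contra h
  have : Finite Ω := not_infinite_iff_finite.1 h
  exact not_finite_iff_infinite.2 (infinite_pgl (F := F))
    (Finite.of_injective _ (MulAction.toPerm_injective (α := PGL(2, F)) (β := Ω)))

end Pool.Agent.MP_57df8f_al.H50
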