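import Pool.Agent.MP_57df8f_al.H50.Abstract

/-! The projective line over a valued field with a cofinal element satisfies `Setup`. -/

namespace Pool.Agent.MP_57df8f_al.H50

open Topology Set Projectivization
open scoped LinearAlgebra.Projectivization MatrixGroups

variable {F : Type*} [Field F]

def wedge (a b : Fin 2 → F) : F := a 0 * b 1 - a 1 * b 0

theorem wedge_self (a : Fin 2 → F) : wedge a a = 0 := by simp only [wedge]; ring

theorem wedge_comm (a b : Fin 2 → F) : wedge a b = - wedge b a := by simp only [wedge]; ring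

theorem wedge_smul_left (t : F) (a b : Fin 2 → F) : wedge (t • a) b = t * wedge a b := by
  simp only [wedge, Pi.smul_apply, smul_eq_mul]; ring

theorem wedge_smul_right (t : F) (a b : Fin 2 → F) : wedge a (t • b) = t * wedge a b := by
  simp only [wedge, Pi.smul_apply, smul_eq_mul]; ring

theorem pluecker (y a x c : Fin 2 → F) :
    wedge y a * wedge x c = wedge y x * wedge a c + wedge y c * wedge x a := by
  simp only [wedge]; ring

theorem gl_smul_apply (g : GL (Fin 2) F) (a : Fin 2 → F) (i : Fin 2) :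
    (g • a) i = g.val i 0 * a 0 + g.val i 1 * a 1 := by
  change (g.val.mulVec a) i = _
  simp [Matrix.mulVec, dotProduct, Fin.sum_univ_two]

theorem wedge_gl (g : GL (Fin 2) F) (a b : Fin 2 → F) :
    wedge (g • a) (g • b) = g.val.det * wedge a b := by
  simp only [wedge, gl_smul_apply, Matrix.det_fin_two]; ring

theorem eq_zero_of_wedge {y x c : Fin 2 → F} (h : wedge x c ≠ 0) (h1 : wedge y x = 0)
    (h2 : wedge y c = 0) : y = 0 := by
  have key : ∀ a, wedge y a = 0 := by
    intro a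
    have := pluecker y a x c
    rw [h1, h2] at this
    simpa [h] using this
  have e0 := key ![0, 1]
  have e1 := key ![1, 0]
  simp [wedge] at e0 e1
  ext i
  fin_cases i <;> simp [e0, e1]

theorem exists_wedge_ne {x : Fin 2 → F} (hx : x ≠ 0) : ∃ c, wedge x c ≠ 0 := by
  by_contra h
  push Not at h
  apply hx
  have e0 := h ![0, 1]
  have e1 := h ![1, 0]
  simp [wedge] at e0 e1
  ext i
  fin_cases i <;> simp [e0, e1]

theorem exists_rep_mk (x : Fin 2 → F) (hx : x ≠ 0) :
    ∃ t : F, t ≠ 0 ∧ (mk F x hx).rep = t • x := by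
  obtain ⟨a, ha⟩ := exists_smul_eq_mk_rep F x hx
  exact ⟨a, a.ne_zero, ha.symm⟩

theorem exists_rep_smul (g : GL (Fin 2) F) (p : ℙ F (Fin 2 → F)) :
    ∃ t : F, t ≠ 0 ∧ ((Matrix.ProjGenLinGroup.mk g : PGL(2, F)) • p).rep = t • g • p.rep := by
  conv => enter [1, t, 2, 1]; rw [← mk_rep p, PGL.mk_smul_mk]
  exact exists_rep_mk _ _

theorem wedge_rep_ne {p q : ℙ F (Fin 2 → F)} (h : p ≠ q) : wedge p.rep q.rep ≠ 0 := by
  intro h0
  apply h
  obtain ⟨c, hc⟩ := exists_wedge_ne q.rep_nonzero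
  rw [← mk_rep p, ← mk_rep q, mk_eq_mk_iff']
  refine ⟨wedge p.rep c / wedge q.rep c, ?_⟩
  have : (wedge p.rep c / wedge q.rep c) • q.rep - p.rep = 0 := by
    refine eq_zero_of_wedge hc ?_ ?_
    · simp only [wedge, Pi.sub_apply, Pi.smul_apply, smul_eq_mul] at h0 ⊢
      linear_combination -h0
    · have : wedge ((wedge p.rep c / wedge q.rep c) • q.rep - p.rep) c =
          (wedge p.rep c / wedge q.rep c) * wedge q.rep c - wedge p.rep c := by
        generalize wedge p.rep c / wedge q.rep c = t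
        simp only [wedge, Pi.sub_apply, Pi.smul_apply, smul_eq_mul]; ring
      rw [this, div_mul_cancel₀ _ hc, sub_self]
  exact sub_eq_zero.1 this

theorem exists_gl {a b a' b' : Fin 2 → F} (h : wedge a b ≠ 0) (h' : wedge a' b' ≠ 0) :
    ∃ g : GL (Fin 2) F, g • a = a' ∧ g • b = b' := by
  have key : ∀ a b : Fin 2 → F, wedge a b ≠ 0 →
      ∃ g : GL (Fin 2) F, g • (![1, 0] : Fin 2 → F) = a ∧ g • (![0, 1] : Fin 2 → F) = b := by
    intro a b h
    refine ⟨Matrix.GeneralLinearGroup.mkOfDetNeZero !![a 0, b 0; a 1, b 1] ?_, ?_, ?_⟩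
    · rw [Matrix.det_fin_two_of]
      simpa [wedge, mul_comm] using h
    · ext i
      fin_cases i <;> simp [gl_smul_apply]
    · ext i
      fin_cases i <;> simp [gl_smul_apply]
  obtain ⟨g, g1, g2⟩ := key a b h
  obtain ⟨g', g1', g2'⟩ := key a' b' h'
  refine ⟨g' * g⁻¹, ?_, ?_⟩
  · rw [mul_smul, ← g1, inv_smul_smul, g1']
  · rw [mul_smul, ← g2, inv_smul_smul, g2']

theorem fix_finite (g : PGL(2, F)) (hg : g ≠ 1) :
    {x : ℙ F (Fin 2 → F) | g • x = x}.Finite := by
  obtain ⟨g, rfl⟩ := Matrix.ProjGenLinGroup.mk_surjective g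
  classical
  by_contra hinf
  obtain ⟨T, hT, hc⟩ := Set.Infinite.exists_subset_card_eq hinf 3
  obtain ⟨p1, p2, p3, h12, h13, h23, rfl⟩ := Finset.card_eq_three.1 hc
  have key : ∀ p : ℙ F (Fin 2 → F), (Matrix.ProjGenLinGroup.mk g : PGL(2, F)) • p = p →
      ∃ l : F, g • p.rep = l • p.rep := by
    intro p hp
    obtain ⟨t, ht, h⟩ := exists_rep_smul g p
    rw [hp] at h
    refine ⟨t⁻¹, ?_⟩
    conv_rhs => rw [h]
    rw [smul_smul, inv_mul_cancel₀ ht, one_smul]
  obtain ⟨l1, e1⟩ := key p1 (hT (by simp))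
  obtain ⟨l2, e2⟩ := key p2 (hT (by simp))
  obtain ⟨l3, e3⟩ := key p3 (hT (by simp))
  have hd : g.val.det ≠ 0 := g.det_ne_zero
  have pr : ∀ {p q : ℙ F (Fin 2 → F)} {l m : F}, p ≠ q → g • p.rep = l • p.rep →
      g • q.rep = m • q.rep → l * m = g.val.det := by
    intro p q l m hpq hp hq
    have := wedge_gl g p.rep q.rep
    rw [hp, hq, wedge_smul_left, wedge_smul_right, ← mul_assoc] at this
    exact mul_right_cancel₀ (wedge_rep_ne hpq) this
  have a13 := pr h13 e1 e3
  have a23 := pr h23 e2 e3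
  have hl3 : l3 ≠ 0 := by rintro rfl; exact hd (by simpa using a13.symm)
  have hl : l2 = l1 := mul_right_cancel₀ hl3 (a23.trans a13.symm)
  have hl1 : l1 ≠ 0 := by rintro rfl; exact hd (by simpa using a13.symm)
  rw [hl] at e2
  have hw := wedge_rep_ne h12
  have f10 := congrFun e1 0
  have f11 := congrFun e1 1
  have f20 := congrFun e2 0
  have f21 := congrFun e2 1
  simp only [gl_smul_apply, Pi.smul_apply, smul_eq_mul] at f10 f11 f20 f21
  have : g = Matrix.GeneralLinearGroup.scalar (Fin 2) (Units.mk0 l1 hl1) := by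
    have g00 : g.val 0 0 = l1 := by
      apply mul_right_cancel₀ hw
      simp only [wedge]
      linear_combination p2.rep 1 * f10 - p1.rep 1 * f20
    have g01 : g.val 0 1 = 0 := by
      apply mul_right_cancel₀ hw
      simp only [wedge]
      linear_combination p1.rep 0 * f20 - p2.rep 0 * f10
    have g10 : g.val 1 0 = 0 := by
      apply mul_right_cancel₀ hw
      simp only [wedge]
      linear_combination p2.rep 1 * f11 - p1.rep 1 * f21
    have g11 : g.val 1 1 = l1 := by
      apply mul_right_cancel₀ hw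
      simp only [wedge]
      linear_combination p1.rep 0 * f21 - p2.rep 0 * f11
    ext i j
    fin_cases i <;> fin_cases j <;> simp [g00, g01, g10, g11]
  exact hg (by rw [this, Matrix.ProjGenLinGroup.mk_scalar])

variable {Γ : Type*} [LinearOrderedCommGroupWithZero Γ] (v : Valuation F Γ)

def Disc (a c : Fin 2 → F) : Set (ℙ F (Fin 2 → F)) := {p | v (wedge p.rep a) ≤ v (wedge p.rep c)}

theorem mk_mem_disc (x : Fin 2 → F) (hx : x ≠ 0) (a c : Fin 2 → F) :
    mk F x hx ∈ Disc v a c ↔ v (wedge x a) ≤ v (wedge x c) := by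
  obtain ⟨t, ht, h⟩ := exists_rep_mk x hx
  simp only [Disc, mem_ofPred_eq, h, wedge_smul_left, map_mul]
  exact mul_le_mul_iff_right₀ (zero_lt_iff.2 (by simpa using ht))

theorem smul_mem_disc (g : GL (Fin 2) F) (p : ℙ F (Fin 2 → F)) (a c : Fin 2 → F) :
    (Matrix.ProjGenLinGroup.mk g : PGL(2, F)) • p ∈ Disc v (g • a) (g • c) ↔ p ∈ Disc v a c := by
  obtain ⟨t, ht, h⟩ := exists_rep_smul g p
  simp only [Disc, mem_ofPred_eq, h, wedge_smul_left, map_mul, wedge_gl, ← mul_assoc]
  refine mul_le_mul_iff_right₀ (zero_lt_iff.2 ?_)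
  simpa using ⟨ht, g.det_ne_zero⟩

theorem self_mem_disc (p : ℙ F (Fin 2 → F)) (c : Fin 2 → F) : p ∈ Disc v p.rep c := by
  simp [Disc, wedge_self]

/-- the hypothesis on the valuation -/
structure Cof (π : F) : Prop where
  ne : π ≠ 0
  lt : v π < 1
  cof : ∀ x y : F, y ≠ 0 → ∃ n : ℕ, v π ^ n * v x < v y

variable {v} {π : F}

theorem Cof.anti (H : Cof v π) {n m : ℕ} (h : n ≤ m) : v π ^ m ≤ v π ^ n :=
  pow_le_pow_right_of_le_one' H.lt.le h

theorem loc (H : Cof v π) {x c a b : Fin 2 → F} (hc : wedge x c ≠ 0) (hb : wedge x b ≠ 0) :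
    ∃ n : ℕ, ∀ y : Fin 2 → F, y ≠ 0 → v (wedge y x) ≤ v π ^ n * v (wedge y c) →
      (v (wedge x a) ≤ v (wedge x b) → v (wedge y a) ≤ v (wedge y b)) ∧
      (v (wedge x a) < v (wedge x b) → v (wedge y a) < v (wedge y b)) := by
  obtain ⟨n1, h1⟩ := H.cof (wedge a c) _ hb
  obtain ⟨n2, h2⟩ := H.cof (wedge b c) _ hb
  refine ⟨max n1 n2, fun y hy hyx => ?_⟩
  have hyc : wedge y c ≠ 0 := by
    intro h
    rw [h, map_zero, mul_zero, le_zero_iff, Valuation.zero_iff] at hyx
    exact hy (eq_zero_of_wedge hc hyx h)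
  have pyc : 0 < v (wedge y c) := zero_lt_iff.2 (by simpa using hyc)
  have pxc : 0 < v (wedge x c) := zero_lt_iff.2 (by simpa using hc)
  have small : ∀ (d : Fin 2 → F) (n : ℕ), n ≤ max n1 n2 → v π ^ n * v (wedge d c) < v (wedge x b) →
      v (wedge y x * wedge d c) < v (wedge y c * wedge x b) := by
    intro d n hn h
    rw [map_mul, map_mul]
    calc v (wedge y x) * v (wedge d c) ≤ v π ^ n * v (wedge y c) * v (wedge d c) := by
          gcongr
          exact hyx.trans (by gcongr ?_ * _; exact H.anti hn)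
      _ = v (wedge y c) * (v π ^ n * v (wedge d c)) := by ac_rfl
      _ < v (wedge y c) * v (wedge x b) := by gcongr
  have s1 := small a n1 (le_max_left _ _) h1
  have s2 := small b n2 (le_max_right _ _) h2
  have eb : v (wedge y b) * v (wedge x c) = v (wedge y c * wedge x b) := by
    rw [← map_mul, pluecker, v.map_add_eq_of_lt_right s2]
  have ea : v (wedge y a) * v (wedge x c) = v (wedge y x * wedge a c + wedge y c * wedge x a) := by
    rw [← map_mul, pluecker]
  constructor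
  · intro h
    rw [← mul_le_mul_iff_left₀ pxc, ea, eb]
    refine v.map_add_le s1.le ?_
    rw [map_mul, map_mul]
    gcongr
  · intro h
    rw [← mul_lt_mul_iff_left₀ pxc, ea, eb]
    refine v.map_add_lt s1 ?_
    rw [map_mul, map_mul]
    gcongr

theorem mem_disc_pow (n : ℕ) (p : ℙ F (Fin 2 → F)) (x c : Fin 2 → F) :
    p ∈ Disc v x (π ^ n • c) ↔ v (wedge p.rep x) ≤ v π ^ n * v (wedge p.rep c) := by
  simp [Disc, wedge_smul_right]

theorem wedge_pow_ne (H : Cof v π) (n : ℕ) {x c : Fin 2 → F} (hc : wedge x c ≠ 0) :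
    wedge x (π ^ n • c) ≠ 0 := by
  rw [wedge_smul_right]
  exact mul_ne_zero (pow_ne_zero _ H.ne) hc

/-- the valuation topology on the projective line -/
@[reducible] def topo (H : Cof v π) : TopologicalSpace (ℙ F (Fin 2 → F)) where
  IsOpen U := ∀ p ∈ U, ∃ c, wedge p.rep c ≠ 0 ∧ Disc v p.rep c ⊆ U
  isOpen_univ p _ := (exists_wedge_ne p.rep_nonzero).imp fun _ hc => ⟨hc, subset_univ _⟩
  isOpen_inter U V hU hV p hp := by
    obtain ⟨c, hc, hcU⟩ := hU p hp.1
    obtain ⟨c', hc', hcV⟩ := hV p hp.2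
    obtain ⟨n, hn⟩ := loc H (a := p.rep) hc hc'
    refine ⟨π ^ n • c, wedge_pow_ne H n hc, fun q hq => ?_⟩
    rw [mem_disc_pow] at hq
    refine ⟨hcU (hq.trans ?_), hcV ((hn _ q.rep_nonzero hq).1 (by simp [wedge_self]))⟩
    exact mul_le_of_le_one_left' (pow_le_one' H.lt.le n)
  isOpen_sUnion S hS p := by
    rintro ⟨U, hU, hp⟩
    obtain ⟨c, hc, hcU⟩ := hS U hU p hp
    exact ⟨c, hc, hcU.trans (subset_sUnion_of_mem hU)⟩

theorem isOpen_disc (H : Cof v π) {a b : Fin 2 → F} (hab : wedge a b ≠ 0) :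
    IsOpen[topo H] (Disc v a b) := by
  intro p hp
  have hb : wedge p.rep b ≠ 0 := by
    intro h
    have : v (wedge p.rep a) ≤ v (wedge p.rep b) := hp
    rw [h, map_zero, le_zero_iff, Valuation.zero_iff] at this
    exact p.rep_nonzero (eq_zero_of_wedge hab this h)
  obtain ⟨n, hn⟩ := loc H (a := a) hb hb
  refine ⟨π ^ n • b, wedge_pow_ne H n hb, fun q hq => ?_⟩
  rw [mem_disc_pow] at hq
  exact (hn _ q.rep_nonzero hq).1 hp

theorem isClosed_disc (H : Cof v π) (a b : Fin 2 → F) : IsClosed[topo H] (Disc v a b) := by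
  let _ := topo H
  refine ⟨fun p hp => ?_⟩
  have hp' : v (wedge p.rep b) < v (wedge p.rep a) := not_le.1 hp
  have ha : wedge p.rep a ≠ 0 := by
    intro h
    rw [h, map_zero] at hp'
    exact not_lt_zero hp'
  obtain ⟨n, hn⟩ := loc H (a := b) ha ha
  refine ⟨π ^ n • a, wedge_pow_ne H n ha, fun q hq => ?_⟩
  rw [mem_disc_pow] at hq
  exact not_le.2 ((hn _ q.rep_nonzero hq).2 hp')

theorem disc_sub (H : Cof v π) {p : ℙ F (Fin 2 → F)} {V : Set (ℙ F (Fin 2 → F))}
    (hV : V ∈ @nhds _ (topo H) p) {c : Fin 2 → F} (hc : wedge p.rep c ≠ 0) :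
    ∃ n : ℕ, Disc v p.rep (π ^ n • c) ⊆ V := by
  let _ := topo H
  obtain ⟨U, hUV, hU, hp⟩ := mem_nhds_iff.1 hV
  obtain ⟨c', hc', hcU⟩ := hU p hp
  obtain ⟨n, hn⟩ := loc H (a := p.rep) hc hc'
  refine ⟨n, fun q hq => ?_⟩
  rw [mem_disc_pow] at hq
  exact hUV (hcU ((hn _ q.rep_nonzero hq).1 (by simp [wedge_self])))

theorem t2 (H : Cof v π) : @T2Space _ (topo H) := by
  let _ := topo H
  refine ⟨fun p q hpq => ⟨Disc v p.rep q.rep, (Disc v p.rep q.rep)ᶜ,
    isOpen_disc H (wedge_rep_ne hpq), (isClosed_disc H _ _).isOpen_compl, self_mem_disc v p _, ?_,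
    disjoint_compl_right⟩⟩
  intro h
  have : v (wedge q.rep p.rep) ≤ v (wedge q.rep q.rep) := h
  rw [wedge_self, map_zero, le_zero_iff, Valuation.zero_iff] at this
  exact wedge_rep_ne hpq.symm this

theorem contSMul (H : Cof v π) :
    @ContinuousConstSMul PGL(2, F) (ℙ F (Fin 2 → F)) (topo H) _ := by
  let _ := topo H
  refine ⟨fun g => ?_⟩
  obtain ⟨g, rfl⟩ := Matrix.ProjGenLinGroup.mk_surjective g
  refine continuous_def.2 fun U hU => isOpen_iff_mem_nhds.2 fun p hp => ?_
  obtain ⟨c, hc, hcU⟩ := hU _ hp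
  set a := ((Matrix.ProjGenLinGroup.mk g : PGL(2, F)) • p).rep with ha
  have hw : wedge (g⁻¹ • a) (g⁻¹ • c) ≠ 0 := by
    rw [wedge_gl]
    exact mul_ne_zero (g⁻¹).det_ne_zero hc
  have key : ∀ q, q ∈ Disc v (g⁻¹ • a) (g⁻¹ • c) ↔
      (Matrix.ProjGenLinGroup.mk g : PGL(2, F)) • q ∈ Disc v a c := by
    intro q
    rw [← smul_mem_disc v g, smul_inv_smul, smul_inv_smul]
  refine Filter.mem_of_superset ((isOpen_disc H hw).mem_nhds ?_) fun q hq => hcU ((key q).1 hq)
  rw [key]
  exact self_mem_disc v _ _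

/-- small cross ratio -/
def CR (v : Valuation F Γ) (π : F) (p p' q q' : ℙ F (Fin 2 → F)) : Prop :=
  v (wedge p.rep p'.rep) * v (wedge q.rep q'.rep) ≤
    v π * (v (wedge p.rep q.rep) * v (wedge p'.rep q'.rep))

theorem v_wedge_comm (a b : Fin 2 → F) : v (wedge a b) = v (wedge b a) := by
  rw [wedge_comm, Valuation.map_neg]

theorem setup (H : Cof v π) : @Setup PGL(2, F) (ℙ F (Fin 2 → F)) _ _ (topo H) (CR v π) := by
  let _ := topo H
  refine ⟨?_, ?_, ?_, ?_, ?_, fix_finite, ?_, ⟨mk F ![1, 0] (by simp)⟩⟩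
  · intro g p p' q q' h
    obtain ⟨g, rfl⟩ := Matrix.ProjGenLinGroup.mk_surjective g
    obtain ⟨t1, -, h1⟩ := exists_rep_smul g p
    obtain ⟨t2, -, h2⟩ := exists_rep_smul g p'
    obtain ⟨t3, -, h3⟩ := exists_rep_smul g q
    obtain ⟨t4, -, h4⟩ := exists_rep_smul g q'
    simp only [CR, h1, h2, h3, h4, wedge_smul_left, wedge_smul_right, wedge_gl, map_mul] at h ⊢
    have := mul_le_mul_right h (v t1 * v t2 * v t3 * v t4 * v g.val.det * v g.val.det)
    refine le_of_eq_of_le ?_ (this.trans_eq ?_) <;> simp only [mul_assoc, mul_comm, mul_left_comm]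
  · intro p p' q q' h
    simp only [CR] at h ⊢
    rw [v_wedge_comm q.rep p.rep, v_wedge_comm q'.rep p'.rep, mul_comm]
    exact h
  · intro x W hW
    obtain ⟨c0, hc0⟩ := exists_wedge_ne x.rep_nonzero
    obtain ⟨n, hn⟩ := disc_sub H hW hc0
    have hc := wedge_pow_ne H n hc0
    set c := π ^ n • c0
    have hsub : ∀ p ∈ Disc v x.rep (π ^ 1 • c), v (wedge p.rep x.rep) ≤ v (wedge p.rep c) := by
      intro p hp
      rw [mem_disc_pow] at hp
      exact hp.trans (mul_le_of_le_one_left' (pow_le_one' H.lt.le 1))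
    refine ⟨Disc v x.rep (π ^ 1 • c), (isOpen_disc H (wedge_pow_ne H 1 hc)).mem_nhds
      (self_mem_disc v _ _), fun p hp => hn (hsub p hp), ?_⟩
    intro p hp p' hp' q hq q' hq'
    have pxc : 0 < v (wedge x.rep c) := zero_lt_iff.2 (by simpa using hc)
    have hqq : ∀ q ∉ W, v (wedge q.rep c) < v (wedge q.rep x.rep) := fun q hq =>
      not_le.1 fun h => hq (hn h)
    have pl : ∀ y y' : Fin 2 → F, wedge y y' * wedge x.rep c =
        wedge y x.rep * wedge y' c - wedge y c * wedge y' x.rep := by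
      intro y y'; simp only [wedge]; ring
    have hpc : ∀ p ∈ Disc v x.rep (π ^ 1 • c), 0 < v (wedge p.rep c) := by
      intro p hp
      refine zero_lt_iff.2 fun h => ?_
      have h1 := hsub p hp
      rw [h, le_zero_iff, Valuation.zero_iff] at h1
      exact p.rep_nonzero (eq_zero_of_wedge hc h1 (by simpa using h))
    have cross : ∀ p ∈ Disc v x.rep (π ^ 1 • c), ∀ q ∉ W, v (wedge p.rep q.rep) * v (wedge x.rep c) =
        v (wedge p.rep c) * v (wedge q.rep x.rep) := by
      intro p hp q hq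
      rw [← map_mul, pl, v.map_sub_eq_of_lt_right, map_mul]
      rw [map_mul, map_mul]
      exact lt_of_le_of_lt (mul_le_mul_left (hsub p hp) _)
        (mul_lt_mul_of_pos_left (hqq q hq) (hpc p hp))
    have b1 : v (wedge p.rep p'.rep) * v (wedge x.rep c) ≤
        v π * (v (wedge p.rep c) * v (wedge p'.rep c)) := by
      rw [mem_disc_pow, pow_one] at hp hp'
      rw [← map_mul, pl]
      refine v.map_sub_le ?_ ?_
      · rw [map_mul, ← mul_assoc]
        gcongr
      · rw [map_mul, mul_left_comm]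
        gcongr
    have b2 : v (wedge q.rep q'.rep) * v (wedge x.rep c) ≤
        v (wedge q.rep x.rep) * v (wedge q'.rep x.rep) := by
      rw [← map_mul, pl]
      refine v.map_sub_le ?_ ?_
      · rw [map_mul]
        exact mul_le_mul_right (hqq q' hq').le _
      · rw [map_mul]
        exact mul_le_mul_left (hqq q hq).le _
    have b3 := mul_le_mul' b1 b2
    simp only [CR]
    rw [← mul_le_mul_iff_left₀ (mul_pos pxc pxc)]
    calc _ = v (wedge p.rep p'.rep) * v (wedge x.rep c) *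
          (v (wedge q.rep q'.rep) * v (wedge x.rep c)) := by ac_rfl
      _ ≤ _ := b3
      _ = v π * ((v (wedge p.rep c) * v (wedge q.rep x.rep)) *
          (v (wedge p'.rep c) * v (wedge q'.rep x.rep))) := by ac_rfl
      _ = _ := by rw [← cross p hp q hq, ← cross p' hp' q' hq']; ac_rfl
  · intro x ω y hx hy hR V hV
    obtain ⟨N, hN⟩ := disc_sub H hV (wedge_rep_ne hx)
    have pos : ∀ m, 0 < v (wedge (y m).rep ω.rep) := fun m =>
      zero_lt_iff.2 (by simpa using wedge_rep_ne (hy m))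
    let ρ : ℕ → Γ := fun m => v (wedge x.rep (y m).rep) / v (wedge (y m).rep ω.rep)
    have h1 : ∀ m, ρ (m + 2) ≤ v π * ρ m := by
      intro m
      have := hR m
      simp only [CR] at this
      simp only [ρ]
      rw [← mul_div_assoc, div_le_div_iff₀ (pos _) (pos _), mul_assoc]
      exact this
    have h2 : ∀ n, ρ (2 * n) ≤ v π ^ n * ρ 0 := by
      intro n
      induction n with
      | zero => simp
      | succ n ih =>
        calc ρ (2 * (n + 1)) = ρ (2 * n + 2) := rfl
          _ ≤ v π * ρ (2 * n) := h1 _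
          _ ≤ v π * (v π ^ n * ρ 0) := by gcongr
          _ = _ := by rw [pow_succ]; ac_rfl
    obtain ⟨n, hn⟩ := H.cof (wedge x.rep (y 0).rep / wedge (y 0).rep ω.rep) (π ^ N)
      (pow_ne_zero _ H.ne)
    rw [map_div₀, map_pow] at hn
    refine ⟨2 * n, hN ?_⟩
    rw [mem_disc_pow, v_wedge_comm, ← div_le_iff₀ (pos _)]
    exact (h2 n).trans hn.le
  · intro a r U hU V hV
    obtain ⟨c, hc⟩ := exists_wedge_ne r.rep_nonzero
    obtain ⟨c', hc'⟩ := exists_wedge_ne a.rep_nonzero
    obtain ⟨n, hn⟩ := disc_sub H hV hc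
    obtain ⟨n', hn'⟩ := disc_sub H hU hc'
    have hw : wedge (π ^ n' • c') a.rep ≠ 0 := by
      rw [wedge_comm]; exact neg_ne_zero.2 (wedge_pow_ne H n' hc')
    obtain ⟨g, g1, g2⟩ := exists_gl (wedge_pow_ne H n hc) hw
    refine ⟨Matrix.ProjGenLinGroup.mk g, (Disc v (π ^ n' • c') a.rep)ᶜ, Disc v r.rep (π ^ n • c),
      (isOpen_disc H hw).isClosed_compl, isClosed_disc H _ _, fun q hq => hn' (not_le.1 hq).le,
      hn, fun x => ?_⟩
    rw [mem_compl_iff, not_not, ← smul_mem_disc v g, g1, g2]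
  · rintro V hV ⟨p, hp⟩
    obtain ⟨c, hc, hcV⟩ := hV p hp
    have hw : ∀ n : ℕ, wedge (p.rep + π ^ n • c) c = wedge p.rep c := by
      intro n; simp only [wedge, Pi.add_apply, Pi.smul_apply, smul_eq_mul]; ring
    have hne : ∀ n : ℕ, p.rep + π ^ n • c ≠ 0 := by
      intro n h
      apply hc
      rw [← hw n, h]
      simp [wedge]
    refine Set.infinite_of_injective_forall_mem (f := fun n : ℕ => mk F _ (hne n)) ?_ ?_
    · intro n m hnm
      obtain ⟨t, ht⟩ := (mk_eq_mk_iff' F _ _ _ _).1 hnm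
      have h1 : wedge (p.rep + π ^ m • c) (p.rep + π ^ n • c) = 0 := by
        rw [← ht, wedge_smul_right, wedge_self, mul_zero]
      have h2 : wedge (p.rep + π ^ m • c) (p.rep + π ^ n • c) = (π ^ n - π ^ m) * wedge p.rep c := by
        simp only [wedge, Pi.add_apply, Pi.smul_apply, smul_eq_mul]; ring
      rw [h2, mul_eq_zero, or_iff_left hc, sub_eq_zero] at h1
      have h3 : v π ^ n = v π ^ m := by rw [← map_pow, ← map_pow, h1]
      exact (pow_right_strictAnti₀ (zero_lt_iff.2 (by simpa using H.ne)) H.lt).injective h3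
    · intro n
      apply hcV
      rw [mk_mem_disc, hw]
      have : wedge (p.rep + π ^ n • c) p.rep = -(π ^ n * wedge p.rep c) := by
        simp only [wedge, Pi.add_apply, Pi.smul_apply, smul_eq_mul]; ring
      rw [this, Valuation.map_neg, map_mul, map_pow]
      exact mul_le_of_le_one_left' (pow_le_one' H.lt.le n)

theorem ht_of_cof [Countable F] (H : Cof v π) :
    ∃ M : Subgroup PGL(2, F), FaithfulSMul PGL(2, F) (PGL(2, F) ⧸ M) ∧
      ∀ k : ℕ, MulAction.IsMultiplyPretransitive PGL(2, F) (PGL(2, F) ⧸ M) k := by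
  let _ := topo H
  have := t2 H
  have := contSMul H
  have : Countable (Matrix (Fin 2) (Fin 2) F) := inferInstanceAs (Countable (Fin 2 → Fin 2 → F))
  have : Countable (GL (Fin 2) F) := Units.val_injective.countable
  have : Countable PGL(2, F) := Matrix.ProjGenLinGroup.mk_surjective.countable
  exact highly_transitive (setup H)

end Pool.Agent.MP_57df8f_al.H50
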